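import Pool.Agent.Y715.Sel
import Pool.Agent.Y699.Pd

/-!
# Squares at the prime `1 + i`
-/

set_option autoImplicit false
set_option linter.unusedSectionVars false

namespace Pool.Agent.D0H43.SG

open H385 (ZI im1 nrm)
open Pool.Agent.Y715.Red Pool.Agent.Y715.Nr Pool.Agent.Y715.Gi Pool.Agent.Y715.Lc
open Pool.Agent.Y715.Two2 (le_lam Lf mem_Lf lam_pos)
open Pool.Agent.Y715.Rec (unit_cases)
open Pool.Agent.H304R2.EC.A1 (prim)

variable {I : PadicAlgCl 2} (hI : I ^ 2 = -1)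

include hI in
/-- squares of units are `± 1` modulo four -/
lemma sq_pm {s : PadicAlgCl 2} (hs1 : ‖s‖ = 1) (hf : ∀ τ : Au 2, τ I = I → τ s = s) :
    ‖s ^ 2 - 1‖ ≤ 1 / 4 ∨ ‖s ^ 2 + 1‖ ≤ 1 / 4 := by
  have hl2 := norm_lam hI
  have hlp := lam_pos hI
  have hl0 : 1 + I ≠ 0 := norm_pos_iff.1 hlp
  have h2n := norm_two'
  have hl4 : ‖(1 + I : PadicAlgCl 2)‖ * ‖(1 + I : PadicAlgCl 2)‖ = 1 / 2 := by
    rw [← pow_two, hl2]; norm_num
  have hfl : ∀ τ : Au 2, τ I = I → τ (1 + I) = 1 + I := by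
    intro τ hτ
    rw [map_add, map_one, hτ]
  rcases residue2 hI hs1.le hf with h1 | h1
  · rw [hs1] at h1
    exact absurd h1 (lt_irrefl _)
  have hm1 : s - 1 ∈ Lf I := fun τ _ hτ => by rw [map_sub, map_one, hf τ hτ]
  have h2 := le_lam hI hm1 h1
  set a : PadicAlgCl 2 := (s - 1) / (1 + I) with ha
  have hsa : s = 1 + (1 + I) * a := by
    rw [ha]
    field_simp
    ring
  have ha1 : ‖a‖ ≤ 1 := by
    rw [ha, norm_div, div_le_one hlp]
    exact h2
  have haf : ∀ τ : Au 2, τ I = I → τ a = a := by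
    intro τ hτ
    rw [ha, map_div₀, map_sub, map_one, hf τ hτ, hfl τ hτ]
  have hII := norm_I hI
  rcases residue2 hI ha1 haf with h3 | h3
  · left
    have h4 : ‖a‖ ≤ ‖1 + I‖ := le_lam hI (fun τ _ hτ => haf τ hτ) h3
    have e : s ^ 2 - 1 = ((1 + I) * a) * ((1 + I) * a + 2) := by rw [hsa]; ring
    have h5 : ‖(1 + I) * a‖ ≤ 1 / 2 := by
      rw [norm_mul, ← hl4]
      exact mul_le_mul_of_nonneg_left h4 (norm_nonneg _)
    have h6 : ‖(1 + I) * a + 2‖ ≤ 1 / 2 := add_le h5 (by rw [h2n]; norm_num)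
    rw [e, norm_mul]
    calc ‖(1 + I) * a‖ * ‖(1 + I) * a + 2‖ ≤ 1 / 2 * (1 / 2) :=
          mul_le_mul h5 h6 (norm_nonneg _) (by norm_num)
      _ = 1 / 4 := by norm_num
  · right
    have h4 : ‖a - 1‖ ≤ ‖1 + I‖ :=
      le_lam hI (fun τ _ hτ => by rw [map_sub, map_one, haf τ hτ]) h3
    have hmI : ‖1 - I‖ ≤ ‖1 + I‖ := by
      have e : 1 - I = -(I * (1 + I)) := by linear_combination hI
      rw [e, norm_neg, norm_mul, hII, one_mul]
    have h5 : ‖a - I‖ ≤ ‖1 + I‖ := by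
      have e : a - I = (a - 1) + (1 - I) := by ring
      rw [e]
      exact add_le h4 hmI
    have h6 : ‖s - I‖ ≤ 1 / 2 := by
      have e : s - I = (1 + I) * (a - I) := by rw [hsa]; linear_combination hI
      rw [e, norm_mul, ← hl4]
      exact mul_le_mul_of_nonneg_left h5 (norm_nonneg _)
    have h7 : ‖s + I‖ ≤ 1 / 2 := by
      have e : s + I = (s - I) + 2 * I := by ring
      rw [e]
      refine add_le h6 ?_
      rw [norm_mul, hII, h2n]
      norm_num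
    have e : s ^ 2 + 1 = (s - I) * (s + I) := by linear_combination hI
    rw [e, norm_mul]
    calc ‖s - I‖ * ‖s + I‖ ≤ 1 / 2 * (1 / 2) := mul_le_mul h6 h7 (norm_nonneg _) (by norm_num)
      _ = 1 / 4 := by norm_num

/-- small elements are divisible by powers of `1 + i` -/
lemma lam_pow_dvd (n : ℕ) : ∀ {w : GaussianInt}, ‖ev I hI w‖ ≤ ‖1 + I‖ ^ n → lam ^ n ∣ w := by
  induction n with
  | zero => exact fun _ => by rw [pow_zero]; exact one_dvd _
  | succ n ih =>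
    intro w hw
    have hl := norm_lam_lt hI
    have hlp := lam_pos hI
    have h1 : ‖ev I hI w‖ < 1 := by
      refine lt_of_le_of_lt hw ?_
      exact pow_lt_one₀ (norm_nonneg _) hl (Nat.succ_ne_zero n)
    obtain ⟨v, rfl⟩ := (dvd_iff hI prime_lam (lam_lt hI) w).2 h1
    rw [map_mul, norm_mul, ev_lam, pow_succ, mul_comm] at hw
    have h2 := ih (le_of_mul_le_mul_right hw hlp)
    rw [pow_succ, mul_comm]
    exact mul_dvd_mul_left _ h2

lemma lam_four : (lam : GaussianInt) ^ 4 = -4 := by decide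

lemma four_dvd {w : GaussianInt} (h : ‖ev I hI w‖ ≤ 1 / 4) : (4 : GaussianInt) ∣ w := by
  have h1 : ‖(1 + I : PadicAlgCl 2)‖ ^ 4 = 1 / 4 := by
    have h2 := norm_lam hI
    calc ‖(1 + I : PadicAlgCl 2)‖ ^ 4 = (‖(1 + I : PadicAlgCl 2)‖ ^ 2) ^ 2 := by ring
      _ = 1 / 4 := by rw [h2]; norm_num
  have h2 := lam_pow_dvd hI 4 (w := w) (by rw [h1]; exact h)
  rw [lam_four] at h2
  exact (neg_dvd).1 h2

/-- **A primary element that is a square at `1 + i` up to a unit.** -/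
theorem at_lam {P u : ZI} (hP : prim P) (hu : IsUnit u) {s : PadicAlgCl 2}
    (hs : s ^ 2 = ev I hI (u * P)) (hf : ∀ τ : Au 2, τ I = I → τ s = s) :
    (u = 1 ∨ u = -1) ∧ (4 * lam : ZI) ∣ P - 1 := by
  obtain ⟨hP1, hP2⟩ := hP
  have hodd : ¬ lam ∣ u * P := by
    intro h
    rcases prime_lam.dvd_or_dvd h with h1 | h1
    · exact prime_lam.not_isUnit (isUnit_of_dvd_unit h1 hu)
    · obtain ⟨v, hv⟩ := h1
      have e1 := congrArg Zsqrtd.re hv
      have e2 := congrArg Zsqrtd.im hv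
      simp [lam] at e1 e2
      omega
  have hs1 : ‖s‖ = 1 := by
    have h1 := eq_one_of_not_lt hI ((dvd_iff hI prime_lam (lam_lt hI) _).not.1 hodd)
    rw [← hs, norm_pow] at h1
    exact (pow_eq_one_iff_of_nonneg (norm_nonneg _) two_ne_zero).1 h1
  have h4 : (4 : ZI) ∣ u * P - 1 ∨ (4 : ZI) ∣ u * P + 1 := by
    rcases sq_pm hI hs1 hf with h | h
    · left
      apply four_dvd hI
      rw [map_sub, map_one, ← hs]
      exact h
    · right
      apply four_dvd hI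
      rw [map_add, map_one, ← hs]
      exact h
  have hc : ∀ {w : ZI}, (4 : ZI) ∣ w → (4 : ℤ) ∣ w.re ∧ (4 : ℤ) ∣ w.im := by
    rintro w ⟨v, rfl⟩
    exact ⟨⟨v.re, by simp⟩, ⟨v.im, by simp⟩⟩
  have huv : u = 1 ∨ u = -1 ∨ u = ⟨0, 1⟩ ∨ u = ⟨0, -1⟩ := by
    rcases unit_cases hu with ⟨h1, h2 | h2⟩ | ⟨h1, h2 | h2⟩
    · exact Or.inr (Or.inr (Or.inl (Zsqrtd.ext h1 h2)))
    · exact Or.inr (Or.inr (Or.inr (Zsqrtd.ext h1 h2)))
    · exact Or.inl (Zsqrtd.ext h2 h1)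
    · exact Or.inr (Or.inl (Zsqrtd.ext h2 h1))
  have key : (u = 1 ∨ u = -1) ∧ (4 : ZI) ∣ P - 1 := by
    have e4 : ∀ {w : ZI}, (4 : ℤ) ∣ w.re → (4 : ℤ) ∣ w.im → (4 : ZI) ∣ w := by
      rintro w ⟨a, ha⟩ ⟨b, hb⟩
      exact ⟨⟨a, b⟩, Zsqrtd.ext (by simp [ha]) (by simp [hb])⟩
    rcases huv with rfl | rfl | rfl | rfl
    · refine ⟨Or.inl rfl, ?_⟩
      rcases h4 with h | h
      · rwa [one_mul] at h
      · obtain ⟨g1, g2⟩ := hc h
        simp at g1 g2
        omega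
    · refine ⟨Or.inr rfl, ?_⟩
      rcases h4 with h | h
      · obtain ⟨g1, g2⟩ := hc h
        simp at g1 g2
        omega
      · obtain ⟨g1, g2⟩ := hc h
        simp at g1 g2
        apply e4
        · simp
          omega
        · simp
          omega
    · exfalso
      rcases h4 with h | h <;> obtain ⟨g1, g2⟩ := hc h <;> simp at g1 g2 <;> omega
    · exfalso
      rcases h4 with h | h <;> obtain ⟨g1, g2⟩ := hc h <;> simp at g1 g2 <;> omega
  refine ⟨key.1, ?_⟩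
  obtain ⟨t, ht⟩ := key.2
  have hc' : P = 1 + 4 * t := by rw [← ht]; ring
  obtain ⟨s', hs', hf'⟩ : ∃ s' : PadicAlgCl 2, s' ^ 2 = ev I hI P ∧
      ∀ τ : Au 2, τ I = I → τ s' = s' := by
    rcases key.1 with rfl | rfl
    · exact ⟨s, by rw [hs, one_mul], hf⟩
    · refine ⟨I * s, ?_, fun τ hτ => by rw [map_mul, hτ, hf τ hτ]⟩
      rw [mul_pow, hI, hs, map_mul, map_neg, map_one]
      ring
  have hl : lam ∣ t := by
    by_contra hcon
    obtain ⟨τ, h1, h2⟩ := not_split hI hc' hs' hcon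
    exact h2 (hf' τ h1)
  obtain ⟨w, hw⟩ := hl
  exact ⟨w, by rw [ht, hw]; ring⟩

end Pool.Agent.D0H43.SG
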