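import Pool.Agent.R384.X.Mq7
import Pool.Agent.D0H43.SG.Two

/-!
# Characters of the absolute Galois group of `ℚ(i)` which are quadratic modulo four: local lemmas
-/

set_option autoImplicit false
set_option linter.unusedSectionVars false

namespace Pool.Agent.D0H43.SG

open H385 (ZI im1 nrm)
open Pool.Agent.Y715.Red Pool.Agent.Y715.Nr Pool.Agent.Y715.Gi
open Pool.Agent.Y715.Df (Cmp exists_cmp exists_emb)
open Pool.Agent.Y715.Lc (norm_two_odd fix_of_unit resid)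
open Pool.Agent.Y715.Sel (iota_sq iota_ev exists_emb2)
open Pool.Agent.Y715.Qr (Sqm)
open Pool.Agent.R384 (II DD conj_mem fix_D fix_I II_sub vl Coc CobOn md md_zero md_cont md_mul
  vl_sub_one vl_one vl_mul norm_of_four add_lt' loc_triv loc_four dec_of_inert)

section loc

variable {p : ℕ} [Fact p.Prime] {I : PadicAlgCl p} (hI : I ^ 2 = -1)

include hI in
/-- the square root of an element with valuation one is ramified -/
lemma no_simple (hp : p ≠ 2) {q t : ZI} (hq : Prime q) (h : ‖ev I hI q‖ < 1) (ht : ¬ q ∣ t)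
    {s : PadicAlgCl p} (hs : s ^ 2 = ev I hI (q * t))
    (hfix : ∀ τ : Au p, Inert τ → τ I = I → τ s = s) : False := by
  have ht0 : t ≠ 0 := fun h0 => ht (by rw [h0]; exact dvd_zero _)
  have hs0 : s ≠ 0 := by
    rintro rfl
    exact mul_ne_zero hq.ne_zero ht0 (ev_inj hI (z := q * t) (by rw [← hs]; ring))
  obtain ⟨m, hm⟩ := norm_odd hI hp hs0 hfix
  have h1 : ‖ev I hI t‖ = 1 := eq_one_of_not_lt hI ((dvd_iff hI hq h t).not.1 ht)
  have h2 : ‖s ^ 2‖ = (p : ℝ) ^ (-1 : ℤ) := by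
    rw [hs, map_mul, norm_mul, h1, mul_one, norm_prime hI hp hq h, zpow_neg_one]
  have h3 := even_of hm h2
  omega

end loc

lemma sqm_sq {q a f : ZI} (hq : Prime q) (ha : ¬ q ∣ a) (h : Sqm q (a ^ 2 * f)) : Sqm q f := by
  obtain ⟨y, hy⟩ := h
  obtain ⟨x, w, hxw⟩ := (hq.irreducible.coprime_iff_not_dvd).2 ha
  refine ⟨w * y, ?_⟩
  have e : f - (w * y) ^ 2 = w ^ 2 * (a ^ 2 * f - y ^ 2) + q * (x * (1 + w * a) * f) := by
    have h1 : w * a = 1 - x * q := by linear_combination hxw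
    linear_combination (-(f * (1 + w * a)) : ZI) * hxw
  rw [e]
  exact dvd_add (hy.mul_left _) (dvd_mul_right _ _)

lemma im_sq : (⟨0, 1⟩ : ZI) ^ 2 = -1 := by decide

lemma sqm_neg {q f : ZI} (h : Sqm q (-f)) : Sqm q f := by
  obtain ⟨y, hy⟩ := h
  refine ⟨⟨0, 1⟩ * y, ?_⟩
  have e : f - ((⟨0, 1⟩ : ZI) * y) ^ 2 = -(-f - y ^ 2) := by
    rw [mul_pow, im_sq]
    ring
  rw [e]
  exact (dvd_neg).2 hy

variable {i₀ : QB} (hi : i₀ ^ 2 = -1)

lemma rt_or {m : ZI} {r : QB} (hr : r ^ 2 = ev i₀ hi m) (σ : GK i₀) : σ r = r ∨ σ r = -r := by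
  have h : (σ r) ^ 2 = r ^ 2 := by rw [← map_pow, hr, gk_ev]
  exact sq_eq_sq_iff_eq_or_eq_neg.1 h

/-- a character that is quadratic modulo four and on the inertia groups -/
structure ChiG (χ : GK i₀ →* ℤ_[2]ˣ) (m : ZI) (r : QB) : Prop where
  cont : Continuous χ
  hr : r ^ 2 = ev i₀ hi m
  one : ∀ σ : GK i₀, σ r = r → (4 : ℤ_[2]) ∣ (χ σ : ℤ_[2]) - 1
  neg : ∀ σ : GK i₀, σ r = -r → (4 : ℤ_[2]) ∣ (χ σ : ℤ_[2]) + 1
  inert : ∀ (p : ℕ) [Fact p.Prime] (ι : QB →ₐ[ℚ] PadicAlgCl p) (τ : Au p) (σ : GK i₀),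
    p ≠ 2 → Cmp ι τ σ → Inert τ → (σ r = r → χ σ = 1) ∧ (σ r = -r → χ σ = -1)

variable {χ : GK i₀ →* ℤ_[2]ˣ} {m : ZI} {r : QB}

lemma ChiG.small (cd : ChiG hi χ m r) {σ : GK i₀} (h : σ r = r) : ‖vl χ σ - 1‖ < 1 / 2 := by
  have h1 := norm_of_four (cd.one σ h)
  have e : (((χ σ : ℤ_[2]) - 1 : ℤ_[2]) : ℚ_[2]) = vl χ σ - 1 := by
    unfold vl
    push_cast
    rfl
  rw [e] at h1
  linarith

lemma ChiG.big (cd : ChiG hi χ m r) {σ : GK i₀} (h : σ r = -r) : ‖vl χ σ - 1‖ = 1 / 2 := by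
  have h1 := norm_of_four (cd.neg σ h)
  have e : (((χ σ : ℤ_[2]) + 1 : ℤ_[2]) : ℚ_[2]) = vl χ σ + 1 := by
    unfold vl
    push_cast
    rfl
  rw [e] at h1
  have h2 := vl_sub_one (χ := χ) σ
  refine le_antisymm h2 ?_
  by_contra hcon
  push Not at hcon
  have h3 : ‖(2 : ℚ_[2])‖ < 1 / 2 := by
    have e2 : (2 : ℚ_[2]) = (vl χ σ + 1) + -(vl χ σ - 1) := by ring
    rw [e2]
    exact add_lt' (by linarith) (by rwa [norm_neg])
  rw [Pool.Agent.R384.norm_two'] at h3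
  exact lt_irrefl _ h3

lemma ChiG.iff (cd : ChiG hi χ m r) (σ : GK i₀) : ‖vl χ σ - 1‖ < 1 / 2 ↔ σ r = r := by
  constructor
  · intro h
    rcases rt_or hi cd.hr σ with h1 | h1
    · exact h1
    · rw [cd.big hi h1] at h
      exact absurd h (lt_irrefl _)
  · exact cd.small hi

/-- the conclusion of the local analysis -/
lemma loc_dich (cd : ChiG hi χ m r) {c : GK i₀ → ℚ_[2]} (hc1 : ∀ σ, ‖c σ‖ ≤ 1) {D : Set (GK i₀)}
    (hD : CobOn χ D c) {σ₀ : GK i₀} (h0 : σ₀ ∈ D) (h2 : σ₀ r = -r) {δ : ZI} {s : QB}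
    (hs : s ^ 2 = ev i₀ hi δ) (hk : ∀ σ : GK i₀, σ s = s ↔ md c σ = 0) :
    (∀ σ ∈ D, σ s = s) ∨ ∀ σ ∈ D, σ (s * r) = s * r := by
  rcases loc_four hD hc1 h0 (cd.big hi h2) with h3 | h3
  · left
    intro σ hσ
    exact (hk σ).2 (h3 σ hσ)
  · right
    intro σ hσ
    have h4 := h3 σ hσ
    rw [← hk σ, cd.iff hi] at h4
    rw [map_mul]
    rcases rt_or hi cd.hr σ with h5 | h5
    · rw [h5, h4.2 h5]
    · rcases rt_or hi hs σ with h6 | h6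
      · rw [h6, h4.1 h6]
      · rw [h5, h6]
        ring

/-- the cocycle is trivial on an unramified inertia group -/
lemma unram (cd : ChiG hi χ m r) {c : GK i₀ → ℚ_[2]} {p : ℕ} [Fact p.Prime] (hp : p ≠ 2)
    {ι : QB →ₐ[ℚ] PadicAlgCl p} (hD : CobOn χ (II ι) c)
    (hm : ¬ ‖ev (ι i₀) (iota_sq hi ι) m‖ < 1) : ∀ σ ∈ (II ι : Set (GK i₀)), md c σ = 0 := by
  apply loc_triv hD
  rintro σ ⟨τ, hτ, hin⟩
  have h1 : (ι r) ^ 2 = ev (ι i₀) (iota_sq hi ι) m := by rw [← map_pow, cd.hr, iota_ev]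
  have h2 : τ (ι r) = ι r := fix_of_unit (iota_sq hi ι) hp h1 hm hin hτ.fix
  have h3 : σ r = r := by
    apply ι.injective
    show ι (σ r) = ι r
    rw [← hτ, h2]
  have h4 := (cd.inert p ι τ σ hp hτ hin).1 h3
  unfold vl
  rw [h4]
  simp

/-- an element of the inertia group of a prime divisor that moves `√m` -/
lemma exists_ram (cd : ChiG hi χ m r) (hm : Squarefree m) {q : ZI} (hq : Prime q) (hqm : q ∣ m)
    {p : ℕ} [Fact p.Prime] (hp : p ≠ 2) {ι : QB →ₐ[ℚ] PadicAlgCl p}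
    (hι : ‖ev (ι i₀) (iota_sq hi ι) q‖ < 1) :
    ∃ σ ∈ (II ι : Set (GK i₀)), σ r = -r := by
  by_contra hcon
  push Not at hcon
  refine not_dvd_of_fix (iota_sq hi ι) hp hq hι hm (s := ι r) ?_ ?_ hqm
  · rw [← map_pow, cd.hr, iota_ev]
  · intro τ hin hτ
    refine fix_I (fun σ hσ => ?_) τ hin hτ
    rcases rt_or hi cd.hr σ with h | h
    · exact h
    · exact absurd h (hcon σ hσ)

/-- the local condition at a prime divisor of `m` -/
lemma loc_q (cd : ChiG hi χ m r) (hm : Squarefree m) {c : GK i₀ → ℚ_[2]} (hc : Coc χ c)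
    (hc1 : ∀ σ, ‖c σ‖ ≤ 1) {q m1 : ZI} (hq : Prime q) (hmq : m = q * m1)
    {p : ℕ} [Fact p.Prime] (hp : p ≠ 2) {ι : QB →ₐ[ℚ] PadicAlgCl p}
    (hι : ‖ev (ι i₀) (iota_sq hi ι) q‖ < 1) (hD : CobOn χ (II ι) c) {δ : ZI}
    (hδ : Squarefree δ) {s : QB} (hs : s ^ 2 = ev i₀ hi δ)
    (hk : ∀ σ : GK i₀, σ s = s ↔ md c σ = 0) :
    (¬ q ∣ δ ∧ Sqm q δ) ∨ ∃ δ1, δ = q * δ1 ∧ Sqm q (δ1 * m1) := by
  have hI := iota_sq hi ι
  have hqm1 : ¬ q ∣ m1 := by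
    rintro ⟨w, hw⟩
    exact hq.not_isUnit (hm q ⟨w, by rw [hmq, hw]; ring⟩)
  obtain ⟨σ₀, h0, h2⟩ := exists_ram hi cd hm hq (by rw [hmq]; exact dvd_mul_right _ _) hp hι
  have hχ : vl χ σ₀ = -1 := by
    obtain ⟨τ, hτ, hin⟩ := h0
    unfold vl
    rw [(cd.inert p ι τ σ₀ hp hτ hin).2 h2]
    simp
  have hD' : CobOn χ (DD ι) c := dec_of_inert hc hD h0 hχ fun τ hτ => conj_mem h0 hτ
  have hsq : (ι s) ^ 2 = ev (ι i₀) hI δ := by rw [← map_pow, hs, iota_ev]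
  rcases loc_dich hi cd hc1 hD' (II_sub h0) h2 hs hk with h | h
  · left
    refine ⟨not_dvd_of_fix hI hp hq hι hδ hsq fun τ _ hτ => fix_D h τ hτ, ?_⟩
    exact resid hI hp hq hι hsq (fix_D h)
  · right
    have hsr : (s * r) ^ 2 = ev i₀ hi (δ * m) := by rw [mul_pow, hs, cd.hr, map_mul]
    have hdv : q ∣ δ := by
      by_contra hcon
      refine no_simple hI hp hq hι (t := δ * m1) (s := ι (s * r))
        (fun h => (hq.dvd_or_dvd h).elim hcon hqm1) ?_ fun τ _ hτ => fix_D h τ hτ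
      rw [← map_pow, hsr, iota_ev, hmq]
      congr 1
      ring
    obtain ⟨δ1, hδ1⟩ := hdv
    refine ⟨δ1, hδ1, ?_⟩
    have hq0 : ev (ι i₀) hI q ≠ 0 := ev_ne _ hq.ne_zero
    refine resid hI hp hq hι (y := ι (s * r) / ev (ι i₀) hI q) ?_ ?_
    · rw [div_pow, ← map_pow, hsr, iota_ev, hδ1, hmq, div_eq_iff (pow_ne_zero _ hq0), ← map_pow,
        ← map_mul]
      congr 1
      ring
    · intro τ hτ
      rw [map_div₀, fix_D h τ hτ, ev_fix hI hτ]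

end Pool.Agent.D0H43.SG
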