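import Pool.Agent.D0H43.SG.Mat

/-!
# The densities
-/

set_option autoImplicit false
set_option linter.unusedSectionVars false

open Filter
open scoped Topology Classical

namespace Pool.Agent.D0H43.SG

open Finset
open H385 (ZI im1 nrm)
open Pool.Agent.Y699 hiding XX kk CC
open Pool.Agent.D0H10.Q4 (MQ cc2 cl InS S1 cl_inj sqfK)
open Pool.Agent.D0H43.Q4 (MB)
open Pool.Agent.D0H43.Q4.P (S4 S5)
open Pool.Agent.D0H10.Q5 (Dn)
open Pool.Agent.D0H43.JQ (det_corner dn_iff ct dn_ct Dn.congr' dn_both ct_congr)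
open Pool.Agent.D0H45.QK (nq tq Gd Sol Psi ψ8 psi8 nq_self den gd_iff_det LT clT ClD lowT)
open Pool.Agent.D0H45.QE (Gd2 gd2_iff den2 ψl psil ψs psis psis8 tq_l tq_8 tq_s tq_mul Psi_mul)
open Pool.Agent.H304R2.EC.A1 (prim prim_mul prim_one prim_ne_zero)

/-- the pencil -/
theorem pencil2 {Δ : ZI} (hΔ : Δ ≠ 0) (t t' : ZI → ZMod 2) (c : ZMod 2) :
    Gd2 t t' (c + 1) (PD Δ) ↔
      ¬ (Gd nq (fun π => t π + t' π) (PD Δ) ↔ Gd2 t t' c (PD Δ)) := by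
  rw [gd2_iff hΔ, gd2_iff hΔ, gd_iff_det hΔ]
  have e : c + 1 + ∑ ρ ∈ PD Δ, t ρ = (c + ∑ ρ ∈ PD Δ, t ρ) + 1 := by ring
  rw [e, det_corner]
  have key : ∀ x y : ZMod 2, x + y ≠ 0 ↔ ¬ (y ≠ 0 ↔ x ≠ 0) := by decide
  exact key _ _

lemma gd_congr {f g : ZI → ZMod 2} {S : Finset ZI} (h : ∀ π ∈ S, f π = g π) :
    Gd nq f S ↔ Gd nq g S := by
  have e : ∀ x, Sol nq f S x ↔ Sol nq g S x := fun x =>
    forall₂_congr fun π hπ => by rw [h π hπ]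
  unfold Gd
  simp only [e]

lemma ct_or (P Q : ZI → Prop) (X : ℕ) :
    ct (fun Δ => P Δ ∨ Q Δ) X + ct (fun Δ => P Δ ∧ Q Δ) X = ct P X + ct Q X := by
  unfold ct
  simp only [card_filter]
  rw [← sum_add_distrib, ← sum_add_distrib]
  refine sum_congr rfl fun Δ _ => ?_
  by_cases h1 : P Δ <;> by_cases h2 : Q Δ <;> simp [h1, h2]

theorem dn_or {P Q : ZI → Prop} {a b c : ℝ} (hP : Dn P a) (hQ : Dn Q b)
    (h : Dn (fun Δ => P Δ ∧ Q Δ) c) : Dn (fun Δ => P Δ ∨ Q Δ) (a + b - c) := by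
  rw [dn_ct] at *
  refine Tendsto.congr (fun X => ?_) ((hP.add hQ).sub h)
  have hc : (ct (fun Δ => P Δ ∨ Q Δ) X : ℝ) + (ct (fun Δ => P Δ ∧ Q Δ) X : ℝ) =
      (ct P X : ℝ) + (ct Q X : ℝ) := by exact_mod_cast ct_or P Q X
  have e : (ct (fun Δ => P Δ ∨ Q Δ) X : ℝ) =
      (ct P X : ℝ) + (ct Q X : ℝ) - (ct (fun Δ => P Δ ∧ Q Δ) X : ℝ) := by linarith
  rw [e]
  ring

lemma pp_of {Δ : ZI} (hΔ : PS Δ) : ∀ π ∈ PD Δ, PP π := fun _ hπ => ((mem_PD hΔ.ne).1 hπ).1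

lemma dn_T {P : ZI → Prop} (h : Tendsto
    (fun X : ℕ => (((SB X).filter fun Δ => ClD LT Δ ∧ P Δ).card : ℝ) /
      (((SB X).filter (ClD LT)).card : ℝ)) atTop (nhds cc2)) : Dn P cc2 := by
  have h2 : ∀ X, (SB X).filter (ClD LT) = SB X := fun X => filter_true_of_mem fun Δ _ => clT Δ
  simp_rw [h2] at h
  have h3 : Dn (fun Δ => ClD LT Δ ∧ P Δ) cc2 := (dn_iff _ _ _).2 h
  exact Dn.congr' (fun Δ _ => and_iff_right (clT Δ)) h3

/-- **The density of the union.** -/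
theorem den_or {ψ ψ' : ZI → ℝ} {q q' r : ZI} (h : Psi ψ q) (h' : Psi ψ' q')
    (h'' : Psi (fun a => ψ a * ψ' a) r) :
    Dn (fun Δ => Gd nq (fun π => tq ψ π + tq ψ' π) (PD Δ) ∨ Gd2 (tq ψ) (tq ψ') 0 (PD Δ))
      (3 / 2 * cc2) := by
  have hA : Dn (fun Δ => Gd nq (fun π => tq ψ π + tq ψ' π) (PD Δ)) cc2 := by
    have h1 := dn_T (P := fun Δ => Gd nq (tq fun a => ψ a * ψ' a) (PD Δ)) (den h'' LT lowT)
    refine Dn.congr' (fun Δ hΔ => ?_) h1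
    refine gd_congr fun π hπ => ?_
    exact (tq_mul h h' (pp_of hΔ π hπ).prm).symm
  have hB : Dn (fun Δ => Gd2 (tq ψ) (tq ψ') 0 (PD Δ)) cc2 :=
    dn_T (P := fun Δ => Gd2 (tq ψ) (tq ψ') 0 (PD Δ)) (den2 LT lowT h h' h'' 0)
  have hC : Dn (fun Δ => Gd2 (tq ψ) (tq ψ') 1 (PD Δ)) cc2 :=
    dn_T (P := fun Δ => Gd2 (tq ψ) (tq ψ') 1 (PD Δ)) (den2 LT lowT h h' h'' 1)
  have hx : Dn (fun Δ => ¬ (Gd nq (fun π => tq ψ π + tq ψ' π) (PD Δ) ↔
      Gd2 (tq ψ) (tq ψ') 0 (PD Δ))) cc2 := by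
    refine Dn.congr' (fun Δ hΔ => ?_) hC
    have h1 := pencil2 hΔ.ne (tq ψ) (tq ψ') 0
    rwa [zero_add] at h1
  have hb := dn_both hA hB hx
  have ho := dn_or hA hB hb
  have e : cc2 + cc2 - (cc2 + cc2 - cc2) / 2 = 3 / 2 * cc2 := by ring
  rwa [e] at ho

/-! ### The events -/

/-- the event for `i ^ a (1 + i) ^ b Δ` -/
def evt (p : ℕ × ℕ) (Δ : ZI) : Prop :=
  if p.2 = 1 then Gd nq (fun π => tq ψ8 π + tq (ψs p.1) π) (PD Δ) ∨
    Gd2 (tq ψ8) (tq (ψs p.1)) 0 (PD Δ)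
  else Gd nq (fun π => tq ψl π + tq (ψs 0) π) (PD Δ) ∨ Gd2 (tq ψl) (tq (ψs 0)) 0 (PD Δ)

theorem den_evt (p : ℕ × ℕ) : Dn (evt p) (3 / 2 * cc2) := by
  by_cases h : p.2 = 1
  · obtain ⟨q', hq'⟩ := psis p.1
    obtain ⟨r, hr⟩ := psis8 p.1
    refine Dn.congr' (fun Δ _ => ?_) (den_or psi8 hq' hr)
    unfold evt
    rw [if_pos h]
  · obtain ⟨q', hq'⟩ := psis 0
    have hr := Psi_mul psil hq' ⟨⟨3, 2⟩, ⟨by decide, by decide⟩, by
      have h1 : (⟨3, 2⟩ : ZI).norm % 8 = 5 := by decide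
      unfold ψs ψl ψ8
      rw [h1]
      norm_num⟩
    refine Dn.congr' (fun Δ _ => ?_) (den_or psil hq' hr)
    unfold evt
    rw [if_neg h]

/-- the criterion holds -/
theorem crit_evt {p : ℕ × ℕ} (hp : p ∈ S4) {Δ : ZI} (hΔ : PS Δ) (h : evt p Δ) :
    Crit (im1 ^ p.1) p.2 (fam Δ) := by
  apply crit_of hΔ
  have hS := pp_of hΔ
  have h2 : ∀ a : ZMod 2, a + a = 0 := by decide
  by_cases hb : p.2 = 1
  · unfold evt at h
    rw [if_pos hb] at h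
    have hf : ∀ π, PP π → pot p.1 p.2 π = tq ψ8 π + tq (ψs p.1) π := by
      intro π hπ
      rw [tq_s p.1 hπ.prm, hb]
      unfold pot
      rw [← tq_l hπ.prm]
      push_cast
      ring
    refine inj_of hS (Or.inl rfl) hf 0 (h.imp_left fun h1 => ?_)
    exact (gd_congr fun π hπ => hf π (hS π hπ)).2 h1
  · unfold evt at h
    rw [if_neg hb] at h
    have hab : p.1 % 2 = 1 ∧ p.2 = 0 := by
      revert hb
      revert hp
      revert p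
      decide
    have hf : ∀ π, PP π → pot p.1 p.2 π = tq ψl π + tq (ψs 0) π := by
      intro π hπ
      have e1 := tq_s 0 hπ.prm
      have e2 : ((p.1 : ℕ) : ZMod 2) = 1 := by
        rw [← Nat.cast_one, ZMod.natCast_eq_natCast_iff]
        exact hab.1
      unfold pot
      rw [e2, hab.2]
      rw [← tq_l hπ.prm] at e1
      have e3 : tq (ψs 0) π = tq ψl π + tq ψ8 π := by
        have := h2 (tq ψ8 π)
        push_cast at e1
        linear_combination e1 - this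
      rw [e3]
      have := h2 (tq ψl π)
      push_cast
      linear_combination -this
    refine inj_of hS (Or.inr rfl) hf 0 (h.imp_left fun h1 => ?_)
    exact (gd_congr fun π hπ => hf π (hS π hπ)).2 h1

end Pool.Agent.D0H43.SG
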