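import Pool.Agent.D0H43.SG.Mq
import Pool.Agent.D0H43.SG.Den

/-!
# The proportions
-/

set_option autoImplicit false
set_option linter.unusedSectionVars false

open Filter
open scoped Topology Classical

namespace Pool.Agent.D0H43.SG

open Finset
open H385 (ZI im1 nrm)
open Pool.Agent.Y699 (PS PD fam fam_PF SB mem_SB pi1)
open Pool.Agent.Y715.Gi (lam)
open Pool.Agent.D0H10.Q4 (cc2 cl InS S1 Ssq cl_inj sqfK inS1_iff inS_Ssq)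
open Pool.Agent.D0H43.Q4.P (S4 S5 inS4_iff inS5_iff)
open Pool.Agent.D0H43.JQ (mix sum_Ssq sum_S1 sum_S4 sum_S5)
open Pool.Agent.H304R2.EC.A1 (prim)

/-- the elements with the property -/
def good (D : ZI) : Prop := ∃ p ∈ S4, ∃ Δ, PS Δ ∧ D = cl p.1 p.2 Δ ∧ evt p Δ

lemma good_cl {p : ℕ × ℕ} (hp : p ∈ S4) {Δ : ZI} (hΔ : PS Δ) :
    good (cl p.1 p.2 Δ) ↔ evt p Δ := by
  have h4 : ∀ p ∈ S4, p.1 < 4 := by decide
  constructor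
  · rintro ⟨p', hp', Δ', hΔ', e, h⟩
    obtain ⟨e1, e2, e3⟩ := cl_inj (h4 p hp) (h4 p' hp') hΔ.prm hΔ'.prm e
    have : p = p' := Prod.ext e1 e2
    rw [this, e3]
    exact h
  · exact fun h => ⟨p, hp, Δ, hΔ, rfl, h⟩

theorem good_ok {D : ZI} (h : good D) : Ok D := by
  obtain ⟨p, hp, Δ, hΔ, rfl, h⟩ := h
  have hPF := fam_PF hΔ.ne
  have hb : ∀ p ∈ S4, p.2 ≤ 1 := by decide
  refine ⟨{π : ZI // π ∈ PD Δ}, inferInstance, inferInstance, fam Δ, im1 ^ p.1, p.2, hPF.pp,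
    hPF.inj, im_unit _, hb p hp, ?_, crit_evt hp hΔ h⟩
  have e : ∏ j, fam Δ j = Δ := hΔ.DD
  rw [e]
  unfold cl
  show im1 ^ p.1 * (lam ^ p.2 * Δ) = _
  ring

/-- the proportion in a union of classes -/
theorem lim_S {S S' : Finset (ℕ × ℕ)} (hS : S ⊆ S4) (hS' : S'.Nonempty)
    (h4' : ∀ p ∈ S', p.1 < 4) :
    Tendsto (fun X : ℕ => ({D : ZI | nrm D ≤ X ∧ InS S D ∧ good D}.ncard : ℝ) /
      ({D : ZI | nrm D ≤ X ∧ InS S' D}.ncard : ℝ)) atTop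
        (𝓝 ((∑ p ∈ S, 3 / 2 * cc2 * (1 / 2 : ℝ) ^ p.2) / ∑ p ∈ S', (1 / 2 : ℝ) ^ p.2)) := by
  have h4 : ∀ p ∈ S4, p.1 < 4 := by decide
  exact mix sqfK S S' hS' (fun p hp => h4 p (hS hp)) h4' evt (fun _ => 3 / 2 * cc2)
    (fun p _ => den_evt p) good fun p hp Δ hΔ => good_cl (hS hp) hΔ

theorem lim_S4 : Tendsto (fun X : ℕ => ({D : ZI | nrm D ≤ X ∧ InS S4 D ∧ good D}.ncard : ℝ) /
      ({D : ZI | nrm D ≤ X ∧ InS S4 D}.ncard : ℝ)) atTop (𝓝 (3 / 2 * cc2)) := by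
  have h := lim_S (S := S4) (S' := S4) (by decide) ⟨(1, 0), by decide⟩ (by decide)
  have e : (∑ p ∈ S4, 3 / 2 * cc2 * (1 / 2 : ℝ) ^ p.2) / ∑ p ∈ S4, (1 / 2 : ℝ) ^ p.2 =
      3 / 2 * cc2 := by
    rw [← Finset.mul_sum, mul_div_assoc, div_self, mul_one]
    rw [sum_S4 fun p => (1 / 2 : ℝ) ^ p.2]
    norm_num
  rwa [e] at h

theorem lim_S1 : Tendsto (fun X : ℕ => ({D : ZI | nrm D ≤ X ∧ InS S1 D ∧ good D}.ncard : ℝ) /
      ({D : ZI | nrm D ≤ X ∧ InS S1 D}.ncard : ℝ)) atTop (𝓝 (3 / 2 * cc2)) := by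
  have h := lim_S (S := S1) (S' := S1) (by decide) ⟨(1, 0), by decide⟩ (by decide)
  have e : (∑ p ∈ S1, 3 / 2 * cc2 * (1 / 2 : ℝ) ^ p.2) / ∑ p ∈ S1, (1 / 2 : ℝ) ^ p.2 =
      3 / 2 * cc2 := by
    rw [← Finset.mul_sum, mul_div_assoc, div_self, mul_one]
    rw [sum_S1 fun p => (1 / 2 : ℝ) ^ p.2]
    norm_num
  rwa [e] at h

theorem lim_S5 : Tendsto (fun X : ℕ => ({D : ZI | nrm D ≤ X ∧ InS S5 D ∧ good D}.ncard : ℝ) /
      ({D : ZI | nrm D ≤ X ∧ InS S5 D}.ncard : ℝ)) atTop (𝓝 (3 / 2 * cc2)) := by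
  have h := lim_S (S := S5) (S' := S5) (by decide) ⟨(0, 1), by decide⟩ (by decide)
  have e : (∑ p ∈ S5, 3 / 2 * cc2 * (1 / 2 : ℝ) ^ p.2) / ∑ p ∈ S5, (1 / 2 : ℝ) ^ p.2 =
      3 / 2 * cc2 := by
    rw [← Finset.mul_sum, mul_div_assoc, div_self, mul_one]
    rw [sum_S5 fun p => (1 / 2 : ℝ) ^ p.2]
    norm_num
  rwa [e] at h

theorem lim_Ssq : Tendsto (fun X : ℕ => ({D : ZI | nrm D ≤ X ∧ InS S4 D ∧ good D}.ncard : ℝ) /
      ({D : ZI | nrm D ≤ X ∧ InS Ssq D}.ncard : ℝ)) atTop (𝓝 cc2) := by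
  have h := lim_S (S := S4) (S' := Ssq) (by decide) ⟨(1, 0), by decide⟩ (by decide)
  have e : (∑ p ∈ S4, 3 / 2 * cc2 * (1 / 2 : ℝ) ^ p.2) / ∑ p ∈ Ssq, (1 / 2 : ℝ) ^ p.2 =
      cc2 := by
    rw [← Finset.mul_sum, sum_Ssq, sum_S4 fun p => (1 / 2 : ℝ) ^ p.2]
    norm_num
    ring
  rwa [e] at h

/-! ### The elements `i D` -/

/-- `i` times a class -/
lemma im_cl {a b : ℕ} (ha : a < 4) (Δ : ZI) : im1 * cl a b Δ = cl ((a + 1) % 4) b Δ := by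
  unfold cl
  interval_cases a
  · show im1 * (im1 ^ 0 * _) = im1 ^ 1 * _
    ring
  · show im1 * (im1 ^ 1 * _) = im1 ^ 2 * _
    ring
  · show im1 * (im1 ^ 2 * _) = im1 ^ 3 * _
    ring
  · show im1 * (im1 ^ 3 * _) = im1 ^ 0 * _
    have h4 : im1 ^ 4 = 1 := by decide
    have e : im1 * (im1 ^ 3 * (pi1 ^ b * Δ)) = im1 ^ 4 * (pi1 ^ b * Δ) := by ring
    rw [e, h4, pow_zero]

theorem lim_im : Tendsto (fun X : ℕ =>
    ({D : ZI | nrm D ≤ X ∧ InS S5 D ∧ good (im1 * D)}.ncard : ℝ) /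
      ({D : ZI | nrm D ≤ X ∧ InS S5 D}.ncard : ℝ)) atTop (𝓝 (3 / 2 * cc2)) := by
  have h4 : ∀ p ∈ S5, p.1 < 4 := by decide
  have h5 : ∀ p ∈ S5, ((p.1 + 1) % 4, p.2) ∈ S4 := by decide
  have h := mix sqfK S5 S5 ⟨(0, 1), by decide⟩ h4 h4 (fun p => evt ((p.1 + 1) % 4, p.2))
    (fun _ => 3 / 2 * cc2) (fun p _ => den_evt _) (fun D => good (im1 * D)) fun p hp Δ hΔ => by
      rw [im_cl (h4 p hp)]
      exact good_cl (h5 p hp) hΔ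
  have e : (∑ p ∈ S5, 3 / 2 * cc2 * (1 / 2 : ℝ) ^ p.2) / ∑ p ∈ S5, (1 / 2 : ℝ) ^ p.2 =
      3 / 2 * cc2 := by
    rw [← Finset.mul_sum, mul_div_assoc, div_self, mul_one]
    rw [sum_S5 fun p => (1 / 2 : ℝ) ^ p.2]
    norm_num
  rwa [e] at h

/-! ### From the limits to the lower bounds -/

lemma fin_nrm (X : ℕ) (P : ZI → Prop) : {D : ZI | nrm D ≤ X ∧ P D}.Finite :=
  (Pool.Agent.Y699.fin_norm_le X).subset fun _ h => h.1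

/-- the elements with another property -/
theorem low_of_lim {P T T' P' : ZI → Prop} {x : ℝ} (h : Tendsto (fun X : ℕ =>
    ({D : ZI | nrm D ≤ X ∧ P D ∧ T D}.ncard : ℝ) / ({D : ZI | nrm D ≤ X ∧ P' D}.ncard : ℝ)) atTop
      (𝓝 x)) (hT : ∀ D, P D → T D → P' D ∧ T' D) (ε : ℝ) (hε : 0 < ε) :
    ∀ᶠ X : ℕ in atTop, (x - ε) * ({D : ZI | nrm D ≤ X ∧ P' D}.ncard : ℝ) ≤
      ({D : ZI | nrm D ≤ X ∧ P' D ∧ T' D}.ncard : ℝ) := by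
  have h1 := h.eventually_const_lt (show x - ε < x by linarith)
  filter_upwards [h1] with X hX
  have h2 : ({D : ZI | nrm D ≤ X ∧ P D ∧ T D}.ncard : ℝ) ≤
      ({D : ZI | nrm D ≤ X ∧ P' D ∧ T' D}.ncard : ℝ) := by
    have : {D : ZI | nrm D ≤ X ∧ P D ∧ T D}.ncard ≤ {D : ZI | nrm D ≤ X ∧ P' D ∧ T' D}.ncard :=
      Set.ncard_le_ncard (fun D hD => ⟨hD.1, hT D hD.2.1 hD.2.2⟩) (fin_nrm X fun D => P' D ∧ T' D)
    exact_mod_cast this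
  refine le_trans ?_ h2
  rcases (Nat.cast_nonneg (α := ℝ) {D : ZI | nrm D ≤ X ∧ P' D}.ncard).eq_or_lt with h0 | h0
  · rw [← h0, mul_zero]
    exact Nat.cast_nonneg _
  · rw [lt_div_iff₀ h0] at hX
    exact hX.le

/-- two properties at the same time -/
theorem low_both {P T₁ T₂ T' : ZI → Prop} {x y : ℝ} (h₁ : Tendsto (fun X : ℕ =>
    ({D : ZI | nrm D ≤ X ∧ P D ∧ T₁ D}.ncard : ℝ) / ({D : ZI | nrm D ≤ X ∧ P D}.ncard : ℝ)) atTop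
      (𝓝 x)) (h₂ : Tendsto (fun X : ℕ =>
    ({D : ZI | nrm D ≤ X ∧ P D ∧ T₂ D}.ncard : ℝ) / ({D : ZI | nrm D ≤ X ∧ P D}.ncard : ℝ)) atTop
      (𝓝 y)) (hT : ∀ D, P D → T₁ D → T₂ D → T' D) (ε : ℝ) (hε : 0 < ε) :
    ∀ᶠ X : ℕ in atTop, (x + y - 1 - ε) * ({D : ZI | nrm D ≤ X ∧ P D}.ncard : ℝ) ≤
      ({D : ZI | nrm D ≤ X ∧ P D ∧ T' D}.ncard : ℝ) := by
  have k1 := h₁.eventually_const_lt (show x - ε / 2 < x by linarith)
  have k2 := h₂.eventually_const_lt (show y - ε / 2 < y by linarith)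
  filter_upwards [k1, k2] with X hX hY
  set A := {D : ZI | nrm D ≤ X ∧ P D ∧ T₁ D} with hA
  set B := {D : ZI | nrm D ≤ X ∧ P D ∧ T₂ D} with hB
  set C := {D : ZI | nrm D ≤ X ∧ P D} with hC
  set E := {D : ZI | nrm D ≤ X ∧ P D ∧ T' D} with hE
  have fA : A.Finite := fin_nrm X fun D => P D ∧ T₁ D
  have fB : B.Finite := fin_nrm X fun D => P D ∧ T₂ D
  have fC : C.Finite := fin_nrm X P
  have fE : E.Finite := fin_nrm X fun D => P D ∧ T' D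
  have h3 : (A ∪ B).ncard + (A ∩ B).ncard = A.ncard + B.ncard :=
    Set.ncard_union_add_ncard_inter A B fA fB
  have h4 : (A ∪ B).ncard ≤ C.ncard := Set.ncard_le_ncard (by
    rintro D (h | h)
    · exact ⟨h.1, h.2.1⟩
    · exact ⟨h.1, h.2.1⟩) fC
  have h5 : (A ∩ B).ncard ≤ E.ncard := Set.ncard_le_ncard (by
    rintro D ⟨h, h'⟩
    exact ⟨h.1, h.2.1, hT D h.2.1 h.2.2 h'.2.2⟩) fE
  have h6 : (A.ncard : ℝ) + B.ncard ≤ C.ncard + E.ncard := by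
    have : A.ncard + B.ncard ≤ C.ncard + E.ncard := by omega
    exact_mod_cast this
  rcases (Nat.cast_nonneg (α := ℝ) C.ncard).eq_or_lt with h0 | h0
  · rw [← h0, mul_zero]
    exact Nat.cast_nonneg _
  · rw [lt_div_iff₀ h0] at hX hY
    nlinarith

end Pool.Agent.D0H43.SG
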