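import Pool.Agent.D0H43.SG.Van
import Pool.Agent.D0H43.JQ.Fin
import Pool.Agent.D0H76.Q4.Convo

/-!
# The criterion in terms of the matrices of the quadratic symbols
-/

set_option autoImplicit false
set_option linter.unusedSectionVars false

open scoped Classical

namespace Pool.Agent.D0H43.SG

open Finset
open H385 (ZI im1 nrm)
open Pool.Agent.Y699 hiding XX kk CC
open Pool.Agent.Y715.Gi (lam prime_lam)
open Pool.Agent.Y715.Qr (Sqm)
open Pool.Agent.D0H45.QK (nq tq Gd Sol Psi ψ8 psi8 nq_self)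
open Pool.Agent.D0H45.QE (Gd2 s2 t2 on mem_on none_on lh2_some lh2_none ψl psil ψs psis psis8 tq_l tq_8
  tq_s sum_tq)
open Pool.Agent.H304R2.EC.A1 (prim prim_mul prim_one prim_ne_zero)

/-! ### The symbols -/

lemma nq_mul {π : ZI} (h : PP π) {a b : ZI} (ha : ¬ π ∣ a) (hb : ¬ π ∣ b) :
    nq π (a * b) = nq π a + nq π b := by
  unfold nq
  rw [qr_mul h]
  have e : (1 : ZMod 2) + 1 = 0 := by decide
  rcases qr_cases ha with h1 | h1 <;> rcases qr_cases hb with h2 | h2 <;> rw [h1, h2] <;>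
    norm_num [e]

lemma nq_prod {π : ZI} (h : PP π) (W : Finset ZI) (hW : ∀ ρ ∈ W, PP ρ) (hπ : π ∉ W) :
    ¬ π ∣ ∏ ρ ∈ W, ρ ∧ nq π (∏ ρ ∈ W, ρ) = ∑ ρ ∈ W, nq π ρ := by
  induction W using Finset.induction_on with
  | empty =>
    rw [prod_empty, sum_empty]
    refine ⟨fun h1 => h.pr.not_isUnit (isUnit_of_dvd_one h1), ?_⟩
    unfold nq
    rw [qr_one h]
    norm_num
  | insert a T ha ih =>
    rw [mem_insert, not_or] at hπ
    obtain ⟨h1, h2⟩ := ih (fun ρ hρ => hW ρ (mem_insert_of_mem hρ)) hπ.2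
    have h3 : ¬ π ∣ a := fun h4 => hπ.1 (h.eq_of_dvd (hW a (mem_insert_self _ _)) h4)
    rw [prod_insert ha, sum_insert ha, nq_mul h h3 h1, h2]
    exact ⟨fun h4 => (h.pr.dvd_or_dvd h4).elim h3 h1, rfl⟩

lemma nq_of_sqm {π x : ZI} (hx : ¬ π ∣ x) (h : Sqm π x) : nq π x = 0 := by
  unfold nq qr
  rw [if_neg hx, if_pos (show ∃ b, π ∣ x - b ^ 2 from h)]
  norm_num

/-- the symbol of the unit -/
lemma nq_im {π : ZI} (h : PP π) : nq π im1 = tq ψ8 π := by
  rw [tq_8]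
  unfold nq
  rw [qr_im h]
  have h1 := h.norm_mod
  by_cases h2 : π.norm % 8 = 5
  · have h3 : ¬ π.norm % 8 = 1 := by omega
    rw [if_neg h3, if_pos rfl, if_pos h2]
  · have h3 : π.norm % 8 = 1 := by omega
    rw [if_pos h3, if_neg (by norm_num), if_neg h2]

lemma not_dvd_im {π : ZI} (h : PP π) : ¬ π ∣ im1 := by
  intro h1
  exact h.pr.not_isUnit (isUnit_of_dvd_unit h1 (IsUnit.of_mul_eq_one (-im1) (by decide)))

lemma not_dvd_pow {π a : ZI} (h : PP π) (ha : ¬ π ∣ a) (n : ℕ) : ¬ π ∣ a ^ n :=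
  fun h1 => ha (h.pr.dvd_of_dvd_pow h1)

lemma nq_pow {π a : ZI} (h : PP π) (ha : ¬ π ∣ a) (n : ℕ) : nq π (a ^ n) = n * nq π a := by
  induction n with
  | zero =>
    rw [pow_zero, Nat.cast_zero, zero_mul]
    unfold nq
    rw [qr_one h]
    norm_num
  | succ n ih =>
    rw [pow_succ, nq_mul h (not_dvd_pow h ha n) ha, ih]
    push_cast
    ring

lemma not_dvd_lam {π : ZI} (h : PP π) : ¬ π ∣ lam := by
  intro h1
  have h2 := (h.pr.dvd_prime_iff_associated prime_lam).1 h1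
  exact lam_not_prim h.prm h2.symm.dvd

lemma nq_lam {π : ZI} (h : PP π) : nq π lam = tq ψl π := by
  rw [tq_l h.prm]
  have h1 : qr π lam = sg (Pool.Agent.D0H43.Q4.xl π : ZMod 2) := Pool.Agent.D0H76.Q4.Two.qr_l1 h
  unfold nq
  rw [h1]
  generalize (Pool.Agent.D0H43.Q4.xl π : ZMod 2) = x
  have key : ∀ x : ZMod 2, (if (if x = 0 then (1 : ℤ) else -1) = -1 then (1 : ZMod 2) else 0) = x := by
    decide
  unfold sg
  exact key x

/-- the potential -/
noncomputable def pot (a b : ℕ) (π : ZI) : ZMod 2 := a * tq ψ8 π + b * tq ψl π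

lemma nq_pot {π : ZI} (h : PP π) (a b : ℕ) :
    ¬ π ∣ im1 ^ a * lam ^ b ∧ nq π (im1 ^ a * lam ^ b) = pot a b π := by
  have h1 := not_dvd_pow h (not_dvd_im h) a
  have h2 := not_dvd_pow h (not_dvd_lam h) b
  refine ⟨fun h3 => (h.pr.dvd_or_dvd h3).elim h1 h2, ?_⟩
  rw [nq_mul h h1 h2, nq_pow h (not_dvd_im h), nq_pow h (not_dvd_lam h), nq_im h, nq_lam h]
  rfl

/-! ### The class of the product -/

lemma tq_of_lam {P : ZI} (h : (4 * lam : ZI) ∣ P - 1) : tq ψ8 P = 0 ∧ tq ψl P = 0 := by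
  obtain ⟨t, ht⟩ := h
  constructor
  · have h1 : ψ8 P = ψ8 1 := psi8.per P 1 ⟨lam * t, by rw [ht]; ring⟩
    unfold tq
    rw [h1, psi8.one]
    norm_num
  · have h2 : P.re = 1 + 4 * (t.re - t.im) := by
      have := congrArg Zsqrtd.re ht
      simp [lam] at this
      linarith
    have h3 : P.im = 4 * (t.re + t.im) := by
      have := congrArg Zsqrtd.im ht
      simp [lam] at this
      linarith
    have h4 : (P.re + P.im - 1) / 4 % 2 = 0 := by
      rw [h2, h3]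
      omega
    unfold tq ψl
    rw [if_pos h4]
    norm_num

/-! ### The criterion -/

/-- the property of the matrix -/
def Inj (f : ZI → ZMod 2) (S : Finset ZI) : Prop := ∀ x : ZI → ZMod 2, Sol nq f S x →
  ∑ ρ ∈ S, tq ψ8 ρ * x ρ = 0 → ∑ ρ ∈ S, tq ψl ρ * x ρ = 0 → ∀ π ∈ S, x π = 0

lemma im_unit (a : ℕ) : IsUnit ((im1 : ZI) ^ a) :=
  (IsUnit.of_mul_eq_one (-im1) (by decide)).pow a

/-- **From the matrix to the criterion.** -/
theorem crit_of {Δ : ZI} (hΔ : PS Δ) {a b : ℕ} (h : Inj (pot a b) (PD Δ)) :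
    Crit (im1 ^ a) b (fam Δ) := by
  intro V h1 h2 h3
  have hPF := fam_PF hΔ.ne
  set W : Finset ZI := V.image (fam Δ) with hW
  have hinj : Set.InjOn (fam Δ) (V : Set {π : ZI // π ∈ PD Δ}) := fun _ _ _ _ h => hPF.inj h
  have hprod : ∏ j ∈ V, fam Δ j = ∏ ρ ∈ W, ρ := by
    rw [hW, prod_image fun x hx y hy h => hPF.inj h]
  have hWP : ∀ ρ ∈ W, PP ρ := by
    intro ρ hρ
    obtain ⟨j, -, rfl⟩ := mem_image.1 hρ
    exact hPF.pp j
  have hWS : W ⊆ PD Δ := by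
    intro ρ hρ
    obtain ⟨j, -, rfl⟩ := mem_image.1 hρ
    exact j.2
  have hmem : ∀ j : {π : ZI // π ∈ PD Δ}, fam Δ j ∈ W ↔ j ∈ V := by
    intro j
    constructor
    · intro hj
      obtain ⟨i, hi, h4⟩ := mem_image.1 hj
      rw [← hPF.inj h4]
      exact hi
    · exact fun hj => mem_image_of_mem _ hj
  have hcompl : ∏ j ∈ Vᶜ, fam Δ j = ∏ ρ ∈ PD Δ \ W, ρ := by
    have e : PD Δ \ W = Vᶜ.image (fam Δ) := by
      ext ρ
      constructor
      · intro h45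
        obtain ⟨h4, h5⟩ := mem_sdiff.1 h45
        exact mem_image.2 ⟨⟨ρ, h4⟩, mem_compl.2 fun h6 => h5 ((hmem ⟨ρ, h4⟩).2 h6), rfl⟩
      · intro h45
        obtain ⟨j, hj, rfl⟩ := mem_image.1 h45
        exact mem_sdiff.2 ⟨j.2, fun h6 => (mem_compl.1 hj) ((hmem j).1 h6)⟩
    rw [e, prod_image fun x hx y hy h => hPF.inj h]
  set x : ZI → ZMod 2 := fun ρ => if ρ ∈ W then 1 else 0 with hx
  have hsum : ∀ F : ZI → ZMod 2, ∑ ρ ∈ PD Δ, F ρ * x ρ = ∑ ρ ∈ W, F ρ := by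
    intro F
    rw [hx]
    simp only [mul_ite, mul_one, mul_zero]
    rw [sum_ite_mem, inter_eq_right.2 hWS]
  have hcls : ∑ ρ ∈ W, tq ψ8 ρ = 0 ∧ ∑ ρ ∈ W, tq ψl ρ = 0 := by
    obtain ⟨g1, g2⟩ := PS_prod hWP
    have k1 := sum_tq psi8 g1
    have k2 := sum_tq psil g1
    rw [g2] at k1 k2
    rw [hprod] at h1
    rw [k1, k2]
    exact tq_of_lam h1
  have hsol : Sol nq (pot a b) (PD Δ) x := by
    intro π hπ
    have hπP : PP π := ((mem_PD hΔ.ne).1 hπ).1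
    by_cases hπW : π ∈ W
    · -- the elements of the set
      have hxπ : x π = 1 := if_pos hπW
      have h5 := h3 ⟨π, hπ⟩ ((hmem ⟨π, hπ⟩).1 hπW)
      have h6 : Sqm π (im1 ^ a * lam ^ b * ∏ ρ ∈ PD Δ \ W, ρ) := by rw [← hcompl]; exact h5
      have hpot := nq_pot hπP a b
      have hpr := nq_prod hπP (PD Δ \ W) (fun ρ hρ => ((mem_PD hΔ.ne).1 (mem_sdiff.1 hρ).1).1)
        fun h7 => (mem_sdiff.1 h7).2 hπW
      have h8 : ¬ π ∣ im1 ^ a * lam ^ b * ∏ ρ ∈ PD Δ \ W, ρ := fun h9 =>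
        (hπP.pr.dvd_or_dvd h9).elim hpot.1 hpr.1
      have h9 := nq_of_sqm h8 h6
      rw [nq_mul hπP hpot.1 hpr.1, hpot.2, hpr.2] at h9
      have e1 : ∑ ρ ∈ PD Δ, nq π ρ * (x ρ + x π) = ∑ ρ ∈ PD Δ \ W, nq π ρ := by
        rw [← sum_sdiff hWS]
        have e2 : ∑ ρ ∈ W, nq π ρ * (x ρ + x π) = 0 := by
          apply sum_eq_zero
          intro ρ hρ
          have : x ρ = 1 := if_pos hρ
          rw [this, hxπ, show (1 : ZMod 2) + 1 = 0 by decide, mul_zero]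
        rw [e2, add_zero]
        apply sum_congr rfl
        intro ρ hρ
        have : x ρ = 0 := if_neg (mem_sdiff.1 hρ).2
        rw [this, hxπ, zero_add, mul_one]
      rw [e1, hxπ, mul_one, add_comm]
      exact h9
    · have hxπ : x π = 0 := if_neg hπW
      have h5 := h2 ⟨π, hπ⟩ fun h6 => hπW ((hmem ⟨π, hπ⟩).2 h6)
      have h6 : Sqm π (∏ ρ ∈ W, ρ) := by rw [← hprod]; exact h5
      have hpr := nq_prod hπP W hWP hπW
      have h9 := nq_of_sqm hpr.1 h6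
      rw [hpr.2] at h9
      rw [hxπ, mul_zero, add_zero]
      simp only [add_zero]
      rw [hsum fun ρ => nq π ρ]
      exact h9
  have h0 := h x hsol (by rw [hsum]; exact hcls.1) (by rw [hsum]; exact hcls.2)
  rw [Finset.eq_empty_iff_forall_notMem]
  intro j hj
  have h4 := h0 (fam Δ j) j.2
  rw [hx] at h4
  simp only [(hmem j).2 hj, if_true] at h4
  exact one_ne_zero h4

/-- one of the two determinants is not zero -/
theorem inj_of {ψ ψ' : ZI → ℝ} {f : ZI → ZMod 2} {S : Finset ZI} (hS : ∀ π ∈ S, PP π)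
    (hψ : ψ = ψ8 ∨ ψ = ψl) (hf : ∀ π, PP π → f π = tq ψ π + tq ψ' π) (c : ZMod 2)
    (h : Gd nq f S ∨ Gd2 (tq ψ) (tq ψ') c S) : Inj f S := by
  intro x hx h8 hl
  rcases h with h | h
  · exact h x hx
  · have h0 : ∑ ρ ∈ S, tq ψ ρ * x ρ = 0 := by
      rcases hψ with rfl | rfl
      · exact h8
      · exact hl
    set y : Option ZI → ZMod 2 := fun o => match o with
      | none => 0
      | some π => x π with hy
    have hsol : Sol (s2 (tq ψ)) (t2 (tq ψ') c) (on S) y := by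
      rintro (_ | π) hπ
      · refine (lh2_none (tq ψ) (tq ψ') c S y).trans ?_
        show ∑ ρ ∈ S, tq ψ ρ * x ρ + (c + ∑ ρ ∈ S, tq ψ ρ) * 0 = 0
        rw [mul_zero, add_zero, h0]
      · refine (lh2_some (tq ψ) (tq ψ') c S y π).trans ?_
        show ∑ ρ ∈ S, nq π ρ * (x ρ + x π) + tq ψ π * (0 + x π) + tq ψ' π * x π = 0
        have h1 := hx π (mem_on.1 hπ)
        rw [hf π (hS π (mem_on.1 hπ))] at h1
        linear_combination h1
    intro π hπ
    exact h y hsol (some π) (mem_on.2 hπ)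

end Pool.Agent.D0H43.SG
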