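import Pool.Agent.D0H43.SG.Chi

/-!
# The vanishing of the Selmer groups of the characters which are quadratic modulo four
-/

set_option autoImplicit false
set_option linter.unusedSectionVars false

namespace Pool.Agent.D0H43.SG

open H385 (ZI im1 nrm)
open Pool.Agent.Y715.Red Pool.Agent.Y715.Nr Pool.Agent.Y715.Gi
open Pool.Agent.Y715.Df (Cmp exists_cmp exists_emb)
open Pool.Agent.Y715.Lc (norm_two_odd fix_of_unit resid)
open Pool.Agent.Y715.Sel (iota_sq iota_ev exists_emb2 not_dvd_of_unr odd_of)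
open Pool.Agent.Y715.Qr (Sqm)
open Pool.Agent.R384 (II DD conj_mem fix_D fix_I II_sub vl Coc CobOn md md_zero md_cont md_mul
  vl_sub_one vl_one vl_mul norm_of_four add_lt' loc_triv loc_four dec_of_inert)
open Pool.Agent.H304R2.EC.A1 (prim prim_mul prim_one prim_ne_zero)
open Pool.Agent.Y699 (PP)

/-! ### Factorisations -/

section fac

variable {J : Type} [Fintype J] [DecidableEq J] {π : J → ZI}

lemma lam_not_prim {P : ZI} (h : prim P) : ¬ lam ∣ P := by
  rintro ⟨v, hv⟩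
  have e1 := congrArg Zsqrtd.re hv
  have e2 := congrArg Zsqrtd.im hv
  obtain ⟨h1, h2⟩ := h
  simp [lam] at e1 e2
  omega

lemma prim_prod (hpp : ∀ j, PP (π j)) (S : Finset J) : prim (∏ j ∈ S, π j) :=
  Finset.prod_induction _ prim (fun _ _ => prim_mul) prim_one fun j _ => (hpp j).prm

lemma dvd_prod_iff (hpp : ∀ j, PP (π j)) (hinj : Function.Injective π) (S : Finset J) (j : J) :
    π j ∣ ∏ i ∈ S, π i ↔ j ∈ S := by
  rw [(hpp j).pr.dvd_finsetProd_iff]
  constructor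
  · rintro ⟨i, hi, hd⟩
    rw [hinj ((hpp j).eq_of_dvd (hpp i) hd)]
    exact hi
  · intro h
    exact ⟨j, h, dvd_refl _⟩

/-- the factorisation of squarefree elements -/
theorem fac (hpp : ∀ j, PP (π j)) (hinj : Function.Injective π) {z : ZI}
    (hz : Squarefree z) (hl : ¬ lam ∣ z)
    (hs : ∀ ρ : ZI, Prime ρ → ρ ∣ z → Associated ρ lam ∨ ∃ j, Associated ρ (π j)) :
    ∃ (u : ZI) (T : Finset J), IsUnit u ∧ (∀ j, j ∈ T ↔ π j ∣ z) ∧ z = u * ∏ j ∈ T, π j := by
  classical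
  set T : Finset J := Finset.univ.filter (fun j => π j ∣ z) with hT
  have hTm : ∀ j, j ∈ T ↔ π j ∣ z := fun j => by rw [hT, Finset.mem_filter]; simp
  have hcop : ∀ i j, i ≠ j → IsCoprime (π i) (π j) := fun i j hij =>
    (hpp i).cop (hpp j) (hinj.ne hij)
  obtain ⟨z', hz'⟩ : ∏ j ∈ T, π j ∣ z := by
    apply Finset.prod_dvd_of_coprime
    · intro i _ j _ hij
      exact hcop i j hij
    · intro i hi
      exact (hTm i).1 hi
  have hπz' : ∀ j, ¬ π j ∣ z' := by
    rintro j ⟨w, hw⟩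
    have hj : j ∈ T := by
      rw [hTm, hz', hw]
      exact ⟨(∏ j ∈ T, π j) * w, by ring⟩
    obtain ⟨v, hv⟩ := (dvd_prod_iff hpp hinj T j).2 hj
    exact (hpp j).pr.not_isUnit (hz (π j) ⟨v * w, by rw [hz', hv, hw]; ring⟩)
  refine ⟨z', T, ?_, hTm, by rw [hz']; ring⟩
  by_contra hu
  have hw0 : z' ≠ 0 := by
    rintro rfl
    apply hz.ne_zero
    rw [hz']
    ring
  obtain ⟨ρ, hρ, hρw⟩ := WfDvdMonoid.exists_irreducible_factor hu hw0
  have hρp := hρ.prime
  rcases hs ρ hρp (by rw [hz']; exact dvd_mul_of_dvd_right hρw _) with h1 | ⟨j, h1⟩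
  · apply hl
    rw [hz']
    exact dvd_mul_of_dvd_right ((h1.dvd_iff_dvd_left).1 hρw) _
  · exact hπz' j ((h1.dvd_iff_dvd_left).1 hρw)

/-- the criterion -/
def Crit (u : ZI) (b : ℕ) (π : J → ZI) : Prop := ∀ V : Finset J,
  (4 * lam : ZI) ∣ ∏ j ∈ V, π j - 1 → (∀ j, j ∉ V → Sqm (π j) (∏ i ∈ V, π i)) →
    (∀ j ∈ V, Sqm (π j) (u * lam ^ b * ∏ i ∈ Vᶜ, π i)) → V = ∅

end fac

/-! ### The vanishing -/

/-- the integral representative of a non zero continuous function -/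
lemma exists_scale {G : Type} [TopologicalSpace G] [CompactSpace G] {c : G → ℚ_[2]}
    (hc : Continuous c) {σ₁ : G} (h1 : c σ₁ ≠ 0) :
    ∃ a : ℚ_[2], a ≠ 0 ∧ (∀ σ, ‖a * c σ‖ ≤ 1) ∧ ∃ σ₀, a * c σ₀ = 1 := by
  have : Nonempty G := ⟨σ₁⟩
  obtain ⟨σ₀, -, h0⟩ := isCompact_univ.exists_isMaxOn (Set.univ_nonempty (α := G))
    (hc.norm.continuousOn (s := Set.univ))
  have hmax : ∀ σ, ‖c σ‖ ≤ ‖c σ₀‖ := fun σ => h0 (Set.mem_univ σ)
  have h2 : c σ₀ ≠ 0 := by
    intro h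
    have h3 := hmax σ₁
    rw [h, norm_zero] at h3
    exact h1 (norm_le_zero_iff.1 h3)
  have h3 : 0 < ‖c σ₀‖ := norm_pos_iff.2 h2
  refine ⟨(c σ₀)⁻¹, inv_ne_zero h2, fun σ => ?_, σ₀, inv_mul_cancel₀ h2⟩
  rw [norm_mul, norm_inv, inv_mul_le_iff₀ h3, mul_one]
  exact hmax σ

variable {i₀ : QB} (hi : i₀ ^ 2 = -1) {χ : GK i₀ →* ℤ_[2]ˣ} {m : ZI} {r : QB}

/-- **The vanishing.** -/
theorem vanish (cd : ChiG hi χ m r) {J : Type} [Fintype J] [DecidableEq J] {π : J → ZI}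
    (hpp : ∀ j, PP (π j)) (hinj : Function.Injective π) {u : ZI} (hu : IsUnit u) {b : ℕ}
    (hb : b ≤ 1) (hm : m = u * lam ^ b * ∏ j, π j) (hC : Crit u b π)
    {c : GK i₀ → ℚ_[2]} (hc : Coc χ c)
    (hodd : ∀ (p : ℕ) [Fact p.Prime] (ι : QB →ₐ[ℚ] PadicAlgCl p), p ≠ 2 →
      CobOn χ (II ι : Set (GK i₀)) c)
    (htwo : ∀ ι : QB →ₐ[ℚ] PadicAlgCl 2, CobOn χ (DD ι : Set (GK i₀)) c) :
    ∃ y : ℚ_[2], ∀ σ, c σ = (vl χ σ - 1) * y := by
  classical
  -- `m` is squarefree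
  have hlamπ : ∀ j, ¬ Associated (π j) lam := fun j h => lam_not_prim (hpp j).prm h.symm.dvd
  have hP1 : ∀ S : Finset J, ¬ lam ∣ ∏ j ∈ S, π j := fun S => lam_not_prim (prim_prod hpp S)
  have hnl : ∀ ρ : ZI, Prime ρ → ρ ∣ m → Associated ρ lam ∨ ∃ j, Associated ρ (π j) := by
    intro ρ hρ h
    rw [hm] at h
    rcases hρ.dvd_or_dvd h with h | h
    · rcases hρ.dvd_or_dvd h with h | h
      · exact absurd (isUnit_of_dvd_unit h hu) hρ.not_isUnit
      · exact Or.inl ((hρ.dvd_prime_iff_associated prime_lam).1 (hρ.dvd_of_dvd_pow h))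
    · obtain ⟨j, -, hj⟩ := (hρ.dvd_finsetProd_iff _).1 h
      exact Or.inr ⟨j, (hρ.dvd_prime_iff_associated (hpp j).pr).1 hj⟩
  have hP0 : ∀ S : Finset J, ∏ j ∈ S, π j ≠ 0 := fun S => prim_ne_zero (prim_prod hpp S)
  have hmsq : Squarefree m := by
    have hsp : Squarefree (∏ j, π j) := by
      refine Finset.squarefree_prod_of_pairwise_isCoprime (fun i _ j _ hij => ?_) fun j _ =>
        (hpp j).pr.irreducible.squarefree
      exact ((hpp i).cop (hpp j) (hinj.ne hij)).isRelPrime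
    have hsl : Squarefree (lam ^ b : ZI) := by
      rcases (show b = 0 ∨ b = 1 by omega) with rfl | rfl
      · rw [pow_zero]; exact squarefree_one
      · rw [pow_one]; exact prime_lam.irreducible.squarefree
    have hrel : IsRelPrime (lam ^ b : ZI) (∏ j, π j) := by
      refine IsRelPrime.pow_left ?_
      exact ((prime_lam.irreducible.coprime_iff_not_dvd).2 (hP1 _)).isRelPrime
    have h1 : Squarefree (lam ^ b * ∏ j, π j : ZI) := _root_.squarefree_mul_iff.2 ⟨hrel, hsl, hsp⟩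
    have h2 : Associated m (lam ^ b * ∏ j, π j) := by
      rw [hm, mul_assoc]
      exact (associated_isUnit_mul_left_iff hu).2 (Associated.refl _)
    exact (h2.squarefree_iff).2 h1
  obtain ⟨ι⟩ := exists_emb2
  have hI := iota_sq hi ι
  obtain ⟨y, hy⟩ := htwo ι
  refine ⟨y, ?_⟩
  by_contra hcon
  push Not at hcon
  obtain ⟨σ₁, hσ₁⟩ := hcon
  -- the cocycle which vanishes on the decomposition group
  have hc1 : Coc χ (fun σ => 1 * c σ + (vl χ σ - 1) * (-y)) := hc.twist cd.cont 1 (-y)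
  set c₁ : GK i₀ → ℚ_[2] := fun σ => 1 * c σ + (vl χ σ - 1) * (-y) with hc₁
  obtain ⟨a, ha, hint0, σ₀, hσ₀⟩ := exists_scale hc1.cont (σ₁ := σ₁) (by
    intro h
    apply hσ₁
    rw [hc₁] at h
    linear_combination h)
  have hcc : Coc χ (fun σ => a * c₁ σ + (vl χ σ - 1) * 0) := hc1.twist cd.cont a 0
  set c' : GK i₀ → ℚ_[2] := fun σ => a * c₁ σ + (vl χ σ - 1) * 0 with hc'
  have hint : ∀ σ, ‖c' σ‖ ≤ 1 := by
    intro σ
    rw [hc']
    simp only [mul_zero, add_zero]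
    exact hint0 σ
  have hone : c' σ₀ = 1 := by
    rw [hc']
    simp only [mul_zero, add_zero]
    exact hσ₀
  have hodd' : ∀ (p : ℕ) [Fact p.Prime] (ι : QB →ₐ[ℚ] PadicAlgCl p), p ≠ 2 →
      CobOn χ (II ι : Set (GK i₀)) c' := fun p _ κ hp => ((hodd p κ hp).twist 1 (-y)).twist a 0
  have hstr' : ∀ σ ∈ (DD ι : Set (GK i₀)), c' σ = 0 := by
    intro σ hσ
    rw [hc', hc₁]
    simp only [hy σ hσ]
    ring
  have hmd : ∀ σ, c' σ = 0 → md c' σ = 0 := fun σ h => md_zero.2 (by rw [h, norm_zero]; norm_num)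
  -- the quadratic character
  obtain ⟨z, hz, hzh⟩ := kum hi (md c') (md_cont hcc) (md_mul hcc hint)
  obtain ⟨s, hs⟩ := IsAlgClosed.exists_pow_nat_eq (ev i₀ hi z) (n := 2) (by norm_num)
  have hk : ∀ σ : GK i₀, σ s = s ↔ md c' σ = 0 := hzh s hs
  have hsD : ∀ σ ∈ (DD ι : Set (GK i₀)), σ s = s := fun σ hσ => (hk σ).2 (hmd σ (hstr' σ hσ))
  have hse : (ι s) ^ 2 = ev (ι i₀) hI z := by rw [← map_pow, hs, iota_ev]
  have hlz : ¬ lam ∣ z := not_dvd_two hI hz hse fun τ _ hτ => fix_D hsD τ hτ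
  have hsup : ∀ ρ : ZI, Prime ρ → ρ ∣ z → Associated ρ lam ∨ ∃ j, Associated ρ (π j) := by
    intro ρ hρ hd
    by_contra hcon
    push Not at hcon
    obtain ⟨p, hp, κ, hl⟩ := exists_emb hi hρ
    have hp2 := odd_of hi κ hρ hl hcon.1
    have hl' : ‖ev (κ i₀) (iota_sq hi κ) ρ‖ < 1 := by rwa [iota_ev] at hl
    refine not_dvd_of_unr hz hzh hp2 κ hρ hl (fun τ σ hc hτ => ?_) hd
    refine unram hi cd hp2 (hodd' p κ hp2) ?_ σ ⟨τ, hc, hτ⟩
    rw [← dvd_iff (iota_sq hi κ) hρ hl']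
    intro h
    rcases hnl ρ hρ h with h1 | ⟨j, h1⟩
    · exact hcon.1 h1
    · exact hcon.2 j h1
  obtain ⟨u', T, hu', hT, hzT⟩ := fac hpp hinj hz hlz hsup
  obtain ⟨hupm, h4l⟩ := at_lam hI (prim_prod hpp T) hu' (s := ι s) (by rw [hse, hzT])
    fun τ hτ => fix_D hsD τ hτ
  have hTe : T = ∅ := by
    have main : ∀ j, (¬ π j ∣ z ∧ Sqm (π j) z) ∨ ∃ δ1, z = π j * δ1 ∧
        Sqm (π j) (δ1 * (u * lam ^ b * ∏ i ∈ Finset.univ.erase j, π i)) := by
      intro j
      obtain ⟨p, hp, κ, hl⟩ := exists_emb hi (hpp j).pr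
      have hp2 := odd_of hi κ (hpp j).pr hl (hlamπ j)
      have hl' : ‖ev (κ i₀) (iota_sq hi κ) (π j)‖ < 1 := by rwa [iota_ev] at hl
      refine loc_q hi cd hmsq hcc hint (hpp j).pr ?_ hp2 hl' (hodd' p κ hp2) hz hs hk
      rw [hm, ← Finset.mul_prod_erase Finset.univ π (Finset.mem_univ j)]
      ring
    refine hC T h4l ?_ ?_
    · intro j hj
      rcases main j with ⟨-, h2⟩ | ⟨δ1, h1, -⟩
      · rw [hzT] at h2
        rcases hupm with rfl | rfl
        · rwa [one_mul] at h2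
        · rw [neg_one_mul] at h2
          exact sqm_neg h2
      · exact absurd ((hT j).2 ⟨δ1, h1⟩) hj
    · intro j hj
      rcases main j with ⟨h1, -⟩ | ⟨δ1, h1, h2⟩
      · exact absurd ((hT j).1 hj) h1
      · have hδ : δ1 = u' * ∏ i ∈ T.erase j, π i := by
          have h3 : π j * δ1 = π j * (u' * ∏ i ∈ T.erase j, π i) := by
            rw [← h1, hzT, ← Finset.mul_prod_erase T π hj]
            ring
          exact mul_left_cancel₀ (hpp j).pr.ne_zero h3
        have hun : ∏ i ∈ Finset.univ.erase j, π i = (∏ i ∈ T.erase j, π i) * ∏ i ∈ Tᶜ, π i := by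
          rw [← Finset.prod_union]
          · congr 1
            ext i
            simp only [Finset.mem_erase, Finset.mem_univ, and_true, Finset.mem_union,
              Finset.mem_compl]
            constructor
            · intro h
              by_cases h4 : i ∈ T
              · exact Or.inl ⟨h, h4⟩
              · exact Or.inr h4
            · rintro (h | h)
              · exact h.1
              · rintro rfl
                exact h hj
          · rw [Finset.disjoint_left]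
            intro i h3 h4
            exact (Finset.mem_compl.1 h4) (Finset.mem_of_mem_erase h3)
        have hnd : ¬ π j ∣ ∏ i ∈ T.erase j, π i := by
          rw [dvd_prod_iff hpp hinj]
          exact Finset.notMem_erase j T
        rw [hδ, hun] at h2
        have h5 : Sqm (π j) ((∏ i ∈ T.erase j, π i) ^ 2 * (u' * (u * lam ^ b * ∏ i ∈ Tᶜ, π i))) := by
          have e : u' * (∏ i ∈ T.erase j, π i) *
              (u * lam ^ b * ((∏ i ∈ T.erase j, π i) * ∏ i ∈ Tᶜ, π i)) =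
              (∏ i ∈ T.erase j, π i) ^ 2 * (u' * (u * lam ^ b * ∏ i ∈ Tᶜ, π i)) := by ring
          rwa [e] at h2
        have h6 := sqm_sq (hpp j).pr hnd h5
        rcases hupm with rfl | rfl
        · rwa [one_mul] at h6
        · rw [neg_one_mul] at h6
          exact sqm_neg h6
  have hsfix : ∀ σ : GK i₀, σ s = s := by
    have h1 : s ^ 2 = 1 ∨ s ^ 2 = i₀ ^ 2 := by
      rw [hzT, hTe, Finset.prod_empty, mul_one] at hs
      rcases hupm with rfl | rfl
      · left; rw [hs, map_one]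
      · right; rw [hs, map_neg, map_one, hi]
    intro σ
    rcases h1 with h1 | h1
    · rcases sq_eq_one_iff.1 h1 with h4 | h4
      · rw [h4, map_one]
      · rw [h4, map_neg, map_one]
    · rcases sq_eq_sq_iff_eq_or_eq_neg.1 h1 with h4 | h4
      · rw [h4, gk_fix]
      · rw [h4, map_neg, gk_fix]
  have h5 : ‖c' σ₀‖ < 1 := md_zero.1 ((hk σ₀).1 (hsfix σ₀))
  rw [hone, norm_one] at h5
  exact lt_irrefl _ h5

end Pool.Agent.D0H43.SG
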