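import Pool.Agent.R384.Cyc
import Pool.Agent.N848.Q.K
import Pool.Agent.D0H43.SG.Van

/-!
# The powers of the cyclotomic character over multiquadratic extensions of `ℚ(i)`
-/

set_option autoImplicit false
set_option linter.unusedSectionVars false

namespace Pool.Agent.D0H43.SG

open H385 (ZI im1 nrm)
open Pool.Agent.Y715.Red Pool.Agent.Y715.Nr Pool.Agent.Y715.Gi
open Pool.Agent.Y715.Df (Cmp exists_cmp exists_emb)
open Pool.Agent.Y715.Sel (iota_sq iota_ev exists_emb2)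
open Pool.Agent.R384 (II DD IIs DDs cι II_conj DD_conj vl_conj es es_one es_neg es_open cont_sgc sgc_one
  sgc_neg fixs II_sub vl Coc CobOn CocOn sgc kr mem_kr cor cor_cont cor_mul cor_loc conj_kr
  vl_sgc_pos vl_sgc_neg cyc cyc_cont cyc_spec cyc_four cyc_inert vl_one vl_mul)
open Pool.Agent.H304R2.EC.A1 (prim prim_mul prim_one prim_ne_zero)
open Pool.Agent.Y699 (PP)

variable {i₀ : QB} (hi : i₀ ^ 2 = -1)

/-! ### The step -/

/-- the Selmer group over the field fixed by `H` is zero -/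
def VanOn (χ : GK i₀ →* ℤ_[2]ˣ) (H : Subgroup (GK i₀)) : Prop :=
  ∀ c : GK i₀ → ℚ_[2], CocOn χ H c →
    (∀ (p : ℕ) [Fact p.Prime] (ι : QB →ₐ[ℚ] PadicAlgCl p), p ≠ 2 →
      ∃ y : ℚ_[2], ∀ σ ∈ (II ι : Set (GK i₀)), σ ∈ H → c σ = (vl χ σ - 1) * y) →
    (∀ ι : QB →ₐ[ℚ] PadicAlgCl 2,
      ∃ y : ℚ_[2], ∀ σ ∈ (DD ι : Set (GK i₀)), σ ∈ H → c σ = (vl χ σ - 1) * y) →
    ∃ y : ℚ_[2], ∀ σ ∈ H, c σ = (vl χ σ - 1) * y

/-- **The step.** -/
theorem VanOn.step {χ : GK i₀ →* ℤ_[2]ˣ} {ε : GK i₀ →* ℤˣ} {G' : Subgroup (GK i₀)}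
    (hop : ∀ u : ℤˣ, IsOpen {g | ε g = u}) (h1 : VanOn χ G')
    (h2 : VanOn (χ * sgc ε) G') : VanOn χ (kr ε G') := by
  by_cases hG : ∃ t ∈ G', ε t = -1
  · obtain ⟨t, ht, hε⟩ := hG
    intro c hc hodd hstr
    have hc' : ∀ σ ∈ kr ε G', ∀ τ ∈ kr ε G', c (σ * τ) = c σ + vl (χ * sgc ε) σ * c τ := by
      intro σ hσ τ hτ
      rw [vl_sgc_pos (mem_kr.1 hσ).2]
      exact hc.mul σ hσ τ hτ
    obtain ⟨y₁, hy₁⟩ := h1 (cor χ ε t c) ⟨cor_cont ht hε hop hc.cont,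
        fun σ hσ τ hτ => cor_mul ht hε hc.mul hσ hτ⟩ (by
      intro p _ ι hp
      obtain ⟨y, hy⟩ := hodd p ι hp
      obtain ⟨y', hy'⟩ := hodd p (cι ι t) hp
      exact cor_loc (I := IIs ι) ht hε hc.mul (fun σ h3 h4 => hy σ h3 h4) (fun σ h3 h4 => by
        rw [hy' _ (II_conj h3) (conj_kr ht hε h4), vl_conj])) (by
      intro ι
      obtain ⟨y, hy⟩ := hstr ι
      obtain ⟨y', hy'⟩ := hstr (cι ι t)
      exact cor_loc (I := DDs ι) ht hε hc.mul (fun σ h3 h4 => hy σ h3 h4) (fun σ h3 h4 => by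
        rw [hy' _ (DD_conj h3) (conj_kr ht hε h4), vl_conj]))
    obtain ⟨y₂, hy₂⟩ := h2 (cor (χ * sgc ε) ε t c) ⟨cor_cont ht hε hop hc.cont,
        fun σ hσ τ hτ => cor_mul ht hε hc' hσ hτ⟩ (by
      intro p _ ι hp
      obtain ⟨y, hy⟩ := hodd p ι hp
      obtain ⟨y', hy'⟩ := hodd p (cι ι t) hp
      exact cor_loc (I := IIs ι) ht hε hc' (fun σ h3 h4 => by
        rw [vl_sgc_pos (mem_kr.1 h4).2]
        exact hy σ h3 h4) (fun σ h3 h4 => by
        rw [vl_sgc_pos (mem_kr.1 h4).2, hy' _ (II_conj h3) (conj_kr ht hε h4), vl_conj])) (by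
      intro ι
      obtain ⟨y, hy⟩ := hstr ι
      obtain ⟨y', hy'⟩ := hstr (cι ι t)
      exact cor_loc (I := DDs ι) ht hε hc' (fun σ h3 h4 => by
        rw [vl_sgc_pos (mem_kr.1 h4).2]
        exact hy σ h3 h4) (fun σ h3 h4 => by
        rw [vl_sgc_pos (mem_kr.1 h4).2, hy' _ (DD_conj h3) (conj_kr ht hε h4), vl_conj]))
    refine ⟨(y₁ + y₂) / 2, fun σ hσ => ?_⟩
    obtain ⟨g1, g2⟩ := mem_kr.1 hσ
    have e1 := hy₁ σ g1
    have e2 := hy₂ σ g1
    unfold cor at e1 e2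
    rw [if_pos g2] at e1 e2
    rw [vl_sgc_neg hε, vl_sgc_pos g2] at e2
    have h2 : (2 : ℚ_[2]) ≠ 0 := two_ne_zero
    field_simp
    linear_combination e1 + e2
  · push Not at hG
    have e : kr ε G' = G' := by
      ext σ
      constructor
      · exact fun h => (mem_kr.1 h).1
      · intro h
        refine mem_kr.2 ⟨h, ?_⟩
        rcases Int.units_eq_one_or (ε σ) with h3 | h3
        · exact h3
        · exact absurd h3 (hG σ h)
    rwa [e]

/-! ### The elements satisfying the criterion -/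

/-- the elements of `ℤ[i]` which satisfy the criterion -/
def Ok (m : ZI) : Prop := ∃ (J : Type) (_ : Fintype J) (_ : DecidableEq J) (π : J → ZI) (u : ZI)
  (b : ℕ), (∀ j, PP (π j)) ∧ Function.Injective π ∧ IsUnit u ∧ b ≤ 1 ∧
    m = u * lam ^ b * ∏ j, π j ∧ Crit u b π

lemma ok_unit {u : ZI} (hu : IsUnit u) : Ok u :=
  ⟨Fin 0, inferInstance, inferInstance, fun _ => 1, u, 0, fun j => j.elim0, fun j => j.elim0, hu,
    by norm_num, by simp, fun V _ _ _ => Subsingleton.elim _ _⟩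

variable {χ : GK i₀ →* ℤ_[2]ˣ} {m : ZI} {r : QB}

theorem van_top (cd : ChiG hi χ m r) (hm : Ok m) : VanOn χ ⊤ := by
  obtain ⟨J, _, _, π, u, b, hpp, hinj, hu, hb, hm, hC⟩ := hm
  intro c hc hodd htwo
  obtain ⟨y, hy⟩ := vanish hi cd hpp hinj hu hb hm hC (c := c)
    ⟨continuousOn_univ.1 (by simpa using hc.cont), fun σ τ =>
      hc.mul σ (Subgroup.mem_top σ) τ (Subgroup.mem_top τ)⟩ (fun p _ ι hp => by
      obtain ⟨y, hy⟩ := hodd p ι hp
      exact ⟨y, fun σ hσ => hy σ hσ (Subgroup.mem_top σ)⟩) (fun ι => by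
      obtain ⟨y, hy⟩ := htwo ι
      exact ⟨y, fun σ hσ => hy σ hσ (Subgroup.mem_top σ)⟩)
  exact ⟨y, fun σ _ => hy σ⟩

lemma ne_neg {t : QB} (ht : t ≠ 0) : t ≠ -t := Pool.Agent.N848.Q.ne_neg ht

/-- change of the square root -/
lemma ChiG.resc (cd : ChiG hi χ m r) {m' : ZI} {f : QB} (hf0 : f ≠ 0)
    (hf : ∀ σ : GK i₀, σ f = f) (hr' : (r / f) ^ 2 = ev i₀ hi m') : ChiG hi χ m' (r / f) := by
  have h1 : ∀ σ : GK i₀, σ (r / f) = r / f ↔ σ r = r := by
    intro σ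
    rw [map_div₀, hf, div_left_inj' hf0]
  have h2 : ∀ σ : GK i₀, σ (r / f) = -(r / f) ↔ σ r = -r := by
    intro σ
    rw [map_div₀, hf, ← neg_div, div_left_inj' hf0]
  refine ⟨cd.cont, hr', ?_, ?_, ?_⟩
  · intro σ h
    exact cd.one σ ((h1 σ).1 h)
  · intro σ h
    exact cd.neg σ ((h2 σ).1 h)
  · intro p _ ι τ σ hp hc hin
    rw [h1, h2]
    exact cd.inert p ι τ σ hp hc hin

open Classical in
/-- twists -/
lemma ChiG.twist (cd : ChiG hi χ m r) (hr0 : r ≠ 0) {s : QB} (hs0 : s ≠ 0)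
    (hs : ∀ σ : GK i₀, σ s = s ∨ σ s = -s) {E : ZI} (hE : s ^ 2 = ev i₀ hi E) :
    ChiG hi (χ * sgc (es hs0 hs)) (m * E) (r * s) := by
  have hne : r * s ≠ -(r * s) := ne_neg (mul_ne_zero hr0 hs0)
  have key : ∀ σ : GK i₀,
      (σ (r * s) = r * s → (σ r = r ∧ es hs0 hs σ = 1) ∨ (σ r = -r ∧ es hs0 hs σ = -1)) ∧
      (σ (r * s) = -(r * s) → (σ r = r ∧ es hs0 hs σ = -1) ∨ (σ r = -r ∧ es hs0 hs σ = 1)) := by
    intro σ
    rw [map_mul]
    rcases rt_or hi cd.hr σ with h | h <;> rcases hs σ with h1 | h1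
    · rw [h, h1]
      exact ⟨fun _ => Or.inl ⟨rfl, (es_one hs0 hs).2 h1⟩, fun h2 => absurd h2 hne⟩
    · rw [h, h1, mul_neg]
      exact ⟨fun h2 => absurd h2.symm hne, fun _ => Or.inl ⟨rfl, (es_neg hs0 hs).2 h1⟩⟩
    · rw [h, h1, neg_mul]
      exact ⟨fun h2 => absurd h2.symm hne, fun _ => Or.inr ⟨rfl, (es_one hs0 hs).2 h1⟩⟩
    · rw [h, h1, neg_mul_neg]
      exact ⟨fun _ => Or.inr ⟨rfl, (es_neg hs0 hs).2 h1⟩, fun h2 => absurd h2 hne⟩
  have ap : ∀ σ : GK i₀, (χ * sgc (es hs0 hs)) σ = χ σ * sgc (es hs0 hs) σ := fun _ => rfl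
  have c1 : ∀ x : ℤ_[2], (4 : ℤ_[2]) ∣ x - 1 → (4 : ℤ_[2]) ∣ x * 1 - 1 := fun x h => by
    rwa [mul_one]
  refine ⟨cd.cont.mul (cont_sgc (es_open hs0 hs)), by rw [mul_pow, cd.hr, hE, map_mul], ?_, ?_, ?_⟩
  · intro σ h
    rw [ap, Units.val_mul]
    rcases (key σ).1 h with ⟨g1, g2⟩ | ⟨g1, g2⟩
    · rw [sgc_one g2, Units.val_one, mul_one]
      exact cd.one σ g1
    · rw [sgc_neg g2, Units.val_neg, Units.val_one]
      have := cd.neg σ g1
      have e : (χ σ : ℤ_[2]) * -1 - 1 = -((χ σ : ℤ_[2]) + 1) := by ring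
      rw [e]
      exact (dvd_neg).2 this
  · intro σ h
    rw [ap, Units.val_mul]
    rcases (key σ).2 h with ⟨g1, g2⟩ | ⟨g1, g2⟩
    · rw [sgc_neg g2, Units.val_neg, Units.val_one]
      have := cd.one σ g1
      have e : (χ σ : ℤ_[2]) * -1 + 1 = -((χ σ : ℤ_[2]) - 1) := by ring
      rw [e]
      exact (dvd_neg).2 this
    · rw [sgc_one g2, Units.val_one, mul_one]
      exact cd.neg σ g1
  · intro p _ ι τ σ hp hc hin
    have h1 := cd.inert p ι τ σ hp hc hin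
    rw [ap]
    constructor
    · intro h
      rcases (key σ).1 h with ⟨g1, g2⟩ | ⟨g1, g2⟩
      · rw [h1.1 g1, sgc_one g2, one_mul]
      · rw [h1.2 g1, sgc_neg g2, neg_mul_neg, one_mul]
    · intro h
      rcases (key σ).2 h with ⟨g1, g2⟩ | ⟨g1, g2⟩
      · rw [h1.1 g1, sgc_neg g2, one_mul]
      · rw [h1.2 g1, sgc_one g2, mul_one]

include hi in
/-- the powers of the cyclotomic character -/
theorem chi_cyc (k : ℤ) : ChiG hi (cyc i₀ ^ k) 1 1 where
  cont := (cyc_cont i₀).zpow k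
  hr := by rw [map_one, one_pow]
  one σ _ := by
    have h1 := (cyc_four hi σ).1 (gk_fix σ)
    show (4 : ℤ_[2]) ∣ (((cyc i₀ σ) ^ k : ℤ_[2]ˣ) : ℤ_[2]) - 1
    rw [← Pool.Agent.N848.Q.ph_one] at h1 ⊢
    rw [map_zpow, h1, one_zpow]
  neg σ h := by
    rw [map_one] at h
    exact absurd h (ne_neg one_ne_zero)
  inert p _ ι τ σ hp hc hin := by
    constructor
    · intro _
      show (cyc i₀ σ) ^ k = 1
      rw [cyc_inert hp (ι := ι) ⟨τ, hc, hin⟩, one_zpow]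
    · intro h
      rw [map_one] at h
      exact absurd h (ne_neg one_ne_zero)

/-! ### Multiquadratic fields -/

section mq

variable {n : ℕ} {s : Fin n → QB} (hs0 : ∀ i, s i ≠ 0)
  (hs : ∀ (i) (σ : GK i₀), σ (s i) = s i ∨ σ (s i) = -s i)

open scoped Classical in
include hs0 hs in
theorem van_all : ∀ (A : Finset (Fin n)) (χ : GK i₀ →* ℤ_[2]ˣ),
    (∀ T ⊆ A, VanOn (χ * ∏ i ∈ T, sgc (es (hs0 i) (hs i))) ⊤) → VanOn χ (fixs s A) := by
  intro A
  induction A using Finset.induction_on with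
  | empty =>
    intro χ h
    have h1 := h ∅ (Finset.Subset.refl _)
    rw [Finset.prod_empty, mul_one] at h1
    have e : (fixs s ∅ : Subgroup (GK i₀)) = ⊤ := by
      ext σ
      exact ⟨fun _ => trivial, fun _ i hi' => absurd hi' (Finset.notMem_empty i)⟩
    rwa [e]
  | insert i A hiA ih =>
    intro χ h
    have e : (fixs s (insert i A) : Subgroup (GK i₀)) = kr (es (hs0 i) (hs i)) (fixs s A) := by
      ext σ
      constructor
      · intro h1
        exact mem_kr.2 ⟨fun j hj => h1 j (Finset.mem_insert_of_mem hj),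
          (es_one (hs0 i) (hs i)).2 (h1 i (Finset.mem_insert_self _ _))⟩
      · intro h1 j hj
        obtain ⟨h2, h3⟩ := mem_kr.1 h1
        rcases Finset.mem_insert.1 hj with rfl | hj
        · exact (es_one (hs0 j) (hs j)).1 h3
        · exact h2 j hj
    rw [e]
    refine VanOn.step (es_open (hs0 i) (hs i)) (ih χ fun T hT =>
      h T (hT.trans (Finset.subset_insert _ _))) (ih _ fun T hT => ?_)
    have h1 := h (insert i T) (Finset.insert_subset_insert _ hT)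
    rw [Finset.prod_insert (fun h => hiA (hT h)), ← mul_assoc] at h1
    exact h1

open scoped Classical in
include hs0 hs in
lemma ChiG.twists {E : Fin n → ZI} (hE : ∀ i, s i ^ 2 = ev i₀ hi (E i)) (cd : ChiG hi χ m r)
    (hr0 : r ≠ 0) (T : Finset (Fin n)) :
    ChiG hi (χ * ∏ i ∈ T, sgc (es (hs0 i) (hs i))) (m * ∏ i ∈ T, E i) (r * ∏ i ∈ T, s i) := by
  induction T using Finset.induction_on with
  | empty => simpa using cd
  | insert i T hiT ih =>
    have h1 := ChiG.twist hi ih (mul_ne_zero hr0 (Finset.prod_ne_zero_iff.2 fun i _ => hs0 i))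
      (hs0 i) (hs i) (hE i)
    rw [Finset.prod_insert hiT, Finset.prod_insert hiT, Finset.prod_insert hiT]
    have e1 : χ * (sgc (es (hs0 i) (hs i)) * ∏ i ∈ T, sgc (es (hs0 i) (hs i))) =
        χ * (∏ i ∈ T, sgc (es (hs0 i) (hs i))) * sgc (es (hs0 i) (hs i)) := by
      refine MonoidHom.ext fun σ => ?_
      have key : ∀ a b c : ℤ_[2]ˣ, a * (b * c) = a * c * b := fun a b c => by
        rw [mul_assoc, mul_comm b]
      exact key _ _ _
    have e2 : m * (E i * ∏ i ∈ T, E i) = m * (∏ i ∈ T, E i) * E i := by ring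
    have e3 : r * (s i * ∏ i ∈ T, s i) = r * (∏ i ∈ T, s i) * s i := by ring
    rw [e1, e2, e3]
    exact h1

/-- **The vanishing theorem over multiquadratic fields.** -/
theorem van_mq {E : Fin n → ZI} (hE : ∀ i, s i ^ 2 = ev i₀ hi (E i)) (hE0 : ∀ i, E i ≠ 0)
    (hgood : ∀ T : Finset (Fin n), ∃ m z : ZI, z ≠ 0 ∧ ∏ i ∈ T, E i = m * z ^ 2 ∧ Ok m) (k : ℤ) :
    VanOn (cyc i₀ ^ k) (fixs s Finset.univ) := by
  classical
  have hs0 : ∀ i, s i ≠ 0 := by
    intro i h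
    have h1 := hE i
    rw [h, zero_pow two_ne_zero] at h1
    exact hE0 i (ev_inj hi h1.symm)
  have hs : ∀ (i) (σ : GK i₀), σ (s i) = s i ∨ σ (s i) = -s i := fun i σ => rt_or hi (hE i) σ
  refine van_all hs0 hs Finset.univ _ fun T _ => ?_
  obtain ⟨m, z, hz, hprod, hok⟩ := hgood T
  have cd1 := ChiG.twists hi hs0 hs hE (chi_cyc hi k) one_ne_zero T
  have hz0 : ev i₀ hi z ≠ 0 := ev_ne hi hz
  have cd2 := ChiG.resc hi cd1 (m' := m) (f := ev i₀ hi z) hz0 (fun σ => gk_ev hi σ z) (by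
    rw [div_pow, cd1.hr, one_mul, hprod, map_mul, map_pow]
    field_simp)
  exact van_top hi cd2 hok

end mq

/-! ### Integrality -/

include hi in
/-- the powers of the cyclotomic character are not trivial on the squares of the elements of the
decomposition groups above two -/
theorem exists_cyc_ne (ι : QB →ₐ[ℚ] PadicAlgCl 2) {k : ℤ} (hk : k ≠ 0) :
    ∃ σ ∈ (DD ι : Set (GK i₀)), (cyc i₀ (σ * σ)) ^ k ≠ 1 := by
  obtain ⟨z, hz⟩ : ∃ z : QB, z ^ 2 = i₀ := IsAlgClosed.exists_pow_nat_eq _ (by norm_num)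
  have hI := iota_sq hi ι
  obtain ⟨τ, hτ, hτI, hτr⟩ := Pool.Agent.Y715.Two2.exists_inert hI (δ := ι i₀)
    (ζ := ι z) (Or.inl rfl) (by rw [← map_pow, hz])
  obtain ⟨σ, hc⟩ := exists_cmp ι τ hτI
  have hne : σ z ≠ z := by
    intro h
    apply hτr
    rw [hc, h]
  have h8 : z ^ 2 ^ 3 = 1 := by
    have : z ^ 2 ^ 3 = ((z ^ 2) ^ 2) ^ 2 := by ring
    rw [this, hz, hi]
    norm_num
  have h1 := cyc_spec σ h8
  refine ⟨σ, ⟨τ, hc⟩, ?_⟩
  rw [map_mul]
  have e : (cyc i₀ σ * cyc i₀ σ) ^ k = (cyc i₀ σ) ^ (2 * k) := by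
    rw [zpow_mul, zpow_ofNat, pow_two]
  rw [e]
  refine Pool.Agent.N848.Q.inf_order ?_ ?_ hk
  · intro h2
    apply hne
    rw [h2, Units.val_one, map_one] at h1
    have : ((1 : ZMod (2 ^ 3))).val = 1 := by decide
    rw [this, pow_one] at h1
    exact h1
  · intro h2
    have h3 := (cyc_four hi σ).1 (gk_fix σ)
    rw [h2] at h3
    obtain ⟨t, ht⟩ := h3
    rw [Units.val_neg, Units.val_one] at ht
    have h6 : (2 : ℤ_[2]) * (2 * t + 1) = 0 := by linear_combination -ht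
    rcases mul_eq_zero.1 h6 with h7 | h7
    · exact two_ne_zero h7
    · have h8 : ‖(2 * t : ℤ_[2])‖ < 1 := by
        rw [norm_mul]
        have h9 : ‖(2 : ℤ_[2])‖ = 1 / 2 := by
          have := PadicInt.norm_p (p := 2)
          simpa using this
        rw [h9]
        have := PadicInt.norm_le_one t
        linarith
      have h9 : (2 * t : ℤ_[2]) = -1 := by linear_combination h7
      rw [h9, norm_neg, norm_one] at h8
      exact lt_irrefl _ h8

end Pool.Agent.D0H43.SG
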